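import Pool.Agent.Helper66.FS.Defs

/-!
# Closure properties of c.e. and computable sets, computable isomorphisms
-/

namespace Pool.Agent.Helper66.FS

open Nat.Partrec (Code)
open Nat.Partrec.Code

theorem CE.union {W V : Set ℕ} (hW : CE W) (hV : CE V) : CE (W ∪ V) := by
  obtain ⟨k, hk, h⟩ := Partrec.merge hW hV (by intro a x _ y _; rfl)
  refine hk.dom_re.of_eq fun a => ?_
  rw [Part.dom_iff_mem]
  constructor
  · rintro ⟨x, hx⟩
    rcases (h a x).1 hx with h1 | h1
    · exact Or.inl (by simpa using h1)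
    · exact Or.inr (by simpa using h1)
  · rintro (h1 | h1)
    · exact ⟨(), (h a ()).2 (Or.inl (by simpa using h1))⟩
    · exact ⟨(), (h a ()).2 (Or.inr (by simpa using h1))⟩

theorem CE.inter {W V : Set ℕ} (hW : CE W) (hV : CE V) : CE (W ∩ V) := by
  have h : Partrec fun a : ℕ => (Part.assert (a ∈ W) fun _ => Part.some ()).bind fun _ =>
      (Part.assert (a ∈ V) fun _ => Part.some ()) :=
    Partrec.bind hW ((show Partrec fun a : ℕ => Part.assert (a ∈ V) fun _ => Part.some () from
      hV).comp Computable.fst)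
  refine h.dom_re.of_eq fun a => ?_
  rw [Part.dom_iff_mem]
  simp

theorem Comp.ce {W : Set ℕ} (h : Comp W) : CE W := ComputablePred.to_re h

theorem comp_iff {W : Set ℕ} : Comp W ↔ CE W ∧ CE Wᶜ :=
  ComputablePred.computable_iff_re_compl_re'

theorem Comp.compl {W : Set ℕ} (h : Comp W) : Comp Wᶜ := ComputablePred.not h

theorem Comp.inter {W V : Set ℕ} (hW : Comp W) (hV : Comp V) : Comp (W ∩ V) := by
  rw [comp_iff] at *
  refine ⟨hW.1.inter hV.1, ?_⟩
  rw [Set.compl_inter]
  exact hW.2.union hV.2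

theorem Comp.union {W V : Set ℕ} (hW : Comp W) (hV : Comp V) : Comp (W ∪ V) := by
  have := (hW.compl.inter hV.compl).compl
  rwa [Set.compl_inter, compl_compl, compl_compl] at this

theorem Comp.diff {W V : Set ℕ} (hW : Comp W) (hV : Comp V) : Comp (W \ V) :=
  hW.inter hV.compl

theorem CE.diff {W V : Set ℕ} (hW : CE W) (hV : Comp V) : CE (W \ V) :=
  hW.inter hV.compl.ce

theorem comp_univ : Comp (Set.univ : Set ℕ) :=
  Computable.computablePred (p := fun n => n ∈ (Set.univ : Set ℕ)) (by
    simpa using Computable.const true)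

theorem comp_empty : Comp (∅ : Set ℕ) := by
  simpa using comp_univ.compl

theorem comp_singleton (a : ℕ) : Comp ({a} : Set ℕ) :=
  Computable.computablePred (p := fun n => n ∈ ({a} : Set ℕ)) <| by
    have h : PrimrecPred fun n : ℕ => n = a := Primrec.eq.comp Primrec.id (Primrec.const a)
    exact (ComputablePred.decide h.computablePred).of_eq fun n => by simp

theorem comp_of_finite {W : Set ℕ} (h : W.Finite) : Comp W := by
  induction W, h using Set.Finite.induction_on with
  | empty => exact comp_empty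
  | insert _ _ ih =>
    rw [Set.insert_eq]
    exact (comp_singleton _).union ih

/-- preimages under computable functions -/
theorem CE.preimage {W : Set ℕ} (hW : CE W) {f : ℕ → ℕ} (hf : Computable f) : CE (f ⁻¹' W) :=
  (show Partrec fun a : ℕ => Part.assert (a ∈ W) fun _ => Part.some () from hW).comp hf

theorem Comp.preimage {W : Set ℕ} (hW : Comp W) {f : ℕ → ℕ} (hf : Computable f) :
    Comp (f ⁻¹' W) := by
  rw [comp_iff] at *
  exact ⟨hW.1.preimage hf, hW.2.preimage hf⟩

/-- projection -/
theorem ce_exists {P : ℕ → ℕ → Bool} (hP : Computable₂ P) : CE {x | ∃ s, P x s = true} := by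
  have h : Partrec fun x : ℕ => Nat.rfind (P x : ℕ →. Bool) := Partrec.rfind hP.partrec₂
  refine h.dom_re.of_eq fun x => ?_
  refine Nat.rfind_dom.trans ?_
  constructor
  · rintro ⟨n, hn, _⟩
    exact ⟨n, (Part.mem_some_iff.1 hn).symm⟩
  · rintro ⟨n, hn⟩
    exact ⟨n, Part.mem_some_iff.2 hn.symm, fun _ => trivial⟩

/-- a code -/
theorem CE.code {W : Set ℕ} (hW : CE W) : ∃ c : Code, ∀ x, x ∈ W ↔ (eval c x).Dom := by
  have h : Partrec fun a : ℕ => (Part.assert (a ∈ W) fun _ => Part.some ()).map fun _ => (0 : ℕ) :=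
    Partrec.map hW (Computable.const 0).to₂
  obtain ⟨c, hc⟩ := exists_code.1 (Partrec.nat_iff.1 h)
  refine ⟨c, fun x => ?_⟩
  rw [hc, Part.dom_iff_mem]
  simp

end Pool.Agent.Helper66.FS
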