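import Pool.Agent.Helper66.FS.Main

/-!
# Property (F) and computable partitions
-/

namespace Pool.Agent.Helper66.FS

variable {A A₀ A₁ B₀ B₁ : Set ℕ}

/-- absorbing a computable set which meets `A` in a computable set -/
theorem Friedberg.move (h : Friedberg A A₀ A₁) {D T : Set ℕ} (hD : Comp D) (hT : Comp T)
    (hd : D ∩ T = ∅) (h1 : ¬ Comp (A ∩ D)) (h2 : Comp (A ∩ T)) :
    Rel D (A₀ ∩ D) (D ∪ T) (A₀ ∩ (D ∪ T)) := by
  have hC : Comp (A₀ ∩ T) := (h.restrict hT).comp_iff.1 h2
  have := Rel.absorb (R := D) (T := T) (X := A₀ ∩ D) (Y := A₁ ∩ D) (C := A₀ ∩ T) hD hT hC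
    Set.inter_subset_right hd (h.ce₀.inter hD.ce) Set.inter_subset_right (h.ce₁.inter hD.ce)
    Set.inter_subset_right (h.restrict hD).inter_empty ((h.restrict hD).infinite h1)
    ((h.restrict hD).symm.infinite h1)
  rwa [← Set.inter_union_distrib_left] at this

theorem Friedberg.rel_univ {D X Z : Set ℕ} (h : Friedberg (A ∩ D) X Z) (hD : Comp D)
    (h1 : ¬ Comp (A ∩ D)) : Rel D X Set.univ X := by
  have e1 : A ∩ D ∩ D = A ∩ D := by ext x; simp only [Set.mem_inter_iff]; tauto
  have e2 : A ∩ D ∩ Dᶜ = ∅ := by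
    ext x; simp only [Set.mem_inter_iff, Set.mem_compl_iff, Set.mem_empty_iff_false]; tauto
  have e3 : X ∩ D = X := Set.inter_eq_left.2 fun x hx => (h.sub₀ hx).2
  have := h.move (D := D) (T := Dᶜ) hD hD.compl (Set.inter_compl_self D) (by rw [e1]; exact h1)
    (by rw [e2]; exact comp_empty)
  rwa [Set.union_compl_self, Set.inter_univ, e3] at this

section

variable {n : ℕ} {R : Fin n → Set ℕ} (hR : ∀ i, Comp (R i))
  (hd : ∀ i j, i ≠ j → R i ∩ R j = ∅) (hu : ⋃ i, R i = Set.univ)

include hR hd hu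

/-- if all noncomputable pieces have property (F), then so has `A` -/
theorem propertyF_of_pieces (hA : CE A) (hc : ¬ Comp A)
    (h : ∀ i, ¬ Comp (A ∩ R i) → PropertyF (orbit (A ∩ R i))) : PropertyF (orbit A) := by
  classical
  rw [propertyF_iff hA]
  intro A₀ A₁ B₀ B₁ h₀ h₁
  obtain ⟨k, hk⟩ : ∃ k, ¬ Comp (A ∩ R k) := by
    by_contra hc'
    push Not at hc'
    apply hc
    have := comp_iUnion hc'
    rwa [← Set.inter_iUnion, hu, Set.inter_univ] at this
  set K : Set ℕ := ⋃ i, if Comp (A ∩ R i) then R i else ∅ with hK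
  have hKc : Comp K := comp_iUnion fun i => by
    split_ifs
    · exact hR i
    · exact comp_empty
  have hAK : Comp (A ∩ K) := by
    rw [hK, Set.inter_iUnion]
    refine comp_iUnion fun i => ?_
    split_ifs with h2
    · exact h2
    · rw [Set.inter_empty]; exact comp_empty
  have memK : ∀ i x, x ∈ R i → (x ∈ K ↔ Comp (A ∩ R i)) := by
    intro i x hx
    rw [hK, Set.mem_iUnion]
    constructor
    · rintro ⟨j, hj⟩
      split_ifs at hj with h2
      · by_cases hij : i = j
        · rw [hij]; exact h2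
        · exfalso
          have : x ∈ R i ∩ R j := ⟨hx, hj⟩
          rw [hd i j hij] at this
          exact this
      · exact absurd hj (Set.notMem_empty x)
    · intro h2
      exact ⟨i, by rw [if_pos h2]; exact hx⟩
  have hkK : R k ∩ K = ∅ := by
    ext x
    simp only [Set.mem_inter_iff, Set.mem_empty_iff_false, iff_false, not_and]
    exact fun hx hx' => hk ((memK k x hx).1 hx')
  -- the pieces of the halves
  have hpiece : ∀ i, ¬ Comp (A ∩ R i) → Rel (R i) (A₀ ∩ R i) (R i) (B₀ ∩ R i) := by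
    intro i hi
    have h2 := h₀.restrict (hR i)
    have h3 := h₁.restrict (hR i)
    have h4 : Auto (A₀ ∩ R i) (B₀ ∩ R i) :=
      (propertyF_iff (hA.inter (hR i).ce)).1 (h i hi) _ _ _ _ h2 h3
    exact (h2.rel_univ (hR i) hi).trans (((auto_iff h2.ce₀).1 h4).trans
      ((h3.rel_univ (hR i) hi).symm h3.ce₀ Set.inter_subset_right))
  set Q : Fin n → Set ℕ := fun i => if i = k then R k ∪ K else
    if Comp (A ∩ R i) then ∅ else R i with hQ
  have hQk : Q k = R k ∪ K := by simp [hQ]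
  have hQi : ∀ i, i ≠ k → ¬ Comp (A ∩ R i) → Q i = R i := fun i h1 h2 => by simp [hQ, h1, h2]
  have hQe : ∀ i, i ≠ k → Comp (A ∩ R i) → Q i = ∅ := fun i h1 h2 => by simp [hQ, h1, h2]
  have hQc : ∀ i, Comp (Q i) := by
    intro i
    by_cases h1 : i = k
    · rw [h1, hQk]; exact (hR k).union hKc
    · by_cases h2 : Comp (A ∩ R i)
      · rw [hQe i h1 h2]; exact comp_empty
      · rw [hQi i h1 h2]; exact hR i
  have hQd : ∀ i j, i ≠ j → Q i ∩ Q j = ∅ := by
    have key : ∀ j, k ≠ j → Q k ∩ Q j = ∅ := by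
      intro j hj
      by_cases h2 : Comp (A ∩ R j)
      · rw [hQe j hj.symm h2, Set.inter_empty]
      · rw [hQi j hj.symm h2, hQk, Set.union_inter_distrib_right, hd k j hj, Set.empty_union]
        ext x
        simp only [Set.mem_inter_iff, Set.mem_empty_iff_false, iff_false, not_and]
        exact fun hx hx' => h2 ((memK j x hx').1 hx)
    intro i j hij
    by_cases h1 : i = k
    · rw [h1]; exact key j (h1 ▸ hij)
    · by_cases h1' : j = k
      · rw [h1', Set.inter_comm]; exact key i (Ne.symm h1)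
      · by_cases h2 : Comp (A ∩ R i)
        · rw [hQe i h1 h2, Set.empty_inter]
        · by_cases h3 : Comp (A ∩ R j)
          · rw [hQe j h1' h3, Set.inter_empty]
          · rw [hQi i h1 h2, hQi j h1' h3]; exact hd i j hij
  have hQu : ∀ x, ∃ i, x ∈ Q i := by
    intro x
    obtain ⟨i, hi⟩ := Set.mem_iUnion.1 (show x ∈ ⋃ i, R i by rw [hu]; trivial)
    by_cases h2 : Comp (A ∩ R i)
    · exact ⟨k, by rw [hQk]; exact Or.inr ((memK i x hi).2 h2)⟩
    · by_cases h1 : i = k
      · exact ⟨k, by rw [hQk]; exact Or.inl (h1 ▸ hi)⟩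
      · exact ⟨i, by rw [hQi i h1 h2]; exact hi⟩
  have hrel : ∀ i, Rel (Q i) (A₀ ∩ Q i) (Q i) (B₀ ∩ Q i) := by
    intro i
    by_cases h1 : i = k
    · rw [h1, hQk]
      exact ((h₀.move (hR k) hKc hkK hk hAK).symm (h₀.ce₀.inter (hR k).ce)
        Set.inter_subset_right).trans ((hpiece k hk).trans (h₁.move (hR k) hKc hkK hk hAK))
    · by_cases h2 : Comp (A ∩ R i)
      · rw [hQe i h1 h2, Set.inter_empty, Set.inter_empty]; exact Rel.refl
      · rw [hQi i h1 h2]; exact hpiece i h2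
  have hg := (Rel.glue_finset (R := Q) (S := Q) (X := fun i => A₀ ∩ Q i)
    (Y := fun i => B₀ ∩ Q i) Finset.univ hrel (fun i => (hQc i).ce) (fun i => (hQc i).ce) hQd hQd
    (fun i => Set.inter_subset_right)).2
  have e1 : ⋃ i ∈ (Finset.univ : Finset (Fin n)), Q i = Set.univ := by
    ext x
    simp only [Set.mem_iUnion, Set.mem_univ, iff_true]
    obtain ⟨i, hi⟩ := hQu x
    exact ⟨i, Finset.mem_univ i, hi⟩
  have e2 : ∀ C : Set ℕ, ⋃ i ∈ (Finset.univ : Finset (Fin n)), C ∩ Q i = C := by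
    intro C
    ext x
    simp only [Set.mem_iUnion, Set.mem_inter_iff]
    constructor
    · rintro ⟨i, _, hi, _⟩
      exact hi
    · intro hx
      obtain ⟨i, hi⟩ := hQu x
      exact ⟨i, Finset.mem_univ i, hx, hi⟩
  rw [e1, e2, e2] at hg
  exact (auto_iff h₀.ce₀).2 hg

/-- the pieces of a computable partition are permuted -/
theorem exists_perm {P P₁ P' P₁' : Set ℕ} (h : Friedberg A P P₁) (h' : Friedberg A P' P₁')
    (hind : ∀ i, Indecomposable (A ∩ R i)) (hPP' : Rel Set.univ P Set.univ P') :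
    ∃ σ : Fin n → Fin n, (∀ j k, ¬ Comp (A ∩ R j) → ¬ Comp (A ∩ R k) → σ j = σ k → j = k) ∧
      ∀ j, ¬ Comp (A ∩ R j) → ¬ Comp (A ∩ R (σ j)) ∧
        Rel (R j) (P ∩ R j) (R (σ j)) (P' ∩ R (σ j)) := by
  classical
  obtain ⟨f, g, hf, hfP⟩ := hPP'
  have su : ∀ X : Set ℕ, X ⊆ Set.univ := Set.subset_univ
  have hfc : ∀ {S}, Comp S → Comp (f S) := fun hS => hf.comp_f comp_univ comp_univ hS (su _)
  have hgc : ∀ {S}, Comp S → Comp (g S) := fun hS => hf.symm.comp_f comp_univ comp_univ hS (su _)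
  have hcf : ∀ S, Comp S → (Comp (A ∩ S) ↔ Comp (A ∩ f S)) := by
    intro S hS
    rw [(h.restrict hS).comp_iff, (h'.restrict (hfc hS)).comp_iff]
    have e : f (P ∩ S) = P' ∩ f S := by rw [hf.f_inter h.ce₀ hS.ce (su _) (su _), hfP]
    rw [← e]
    constructor
    · exact fun h1 => hfc h1
    · intro h1
      have := hgc h1
      rwa [hf.gf _ (h.ce₀.inter hS.ce) (su _)] at this
  have hmono : ∀ {S T : Set ℕ}, Comp T → T ⊆ S → Comp (A ∩ S) → Comp (A ∩ T) := by
    intro S T hT hTS h1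
    have : A ∩ T = (A ∩ S) ∩ T := by
      ext x
      have := @hTS x
      simp only [Set.mem_inter_iff]
      tauto
    rw [this]
    exact h1.inter hT
  -- the images of the pieces
  have hT : ∀ j, Comp (f (R j)) := fun j => hfc (hR j)
  have hTd : ∀ i j, i ≠ j → f (R i) ∩ f (R j) = ∅ := fun i j hij =>
    hf.f_disj (hR i).ce (hR j).ce (su _) (su _) (hd i j hij)
  have hTR : ∀ j k, Comp (A ∩ (f (R j) ∩ R k)) ∨ Comp (A ∩ (f (R j) \ R k)) := by
    intro j k
    have e1 : f (R j ∩ g (R k)) = f (R j) ∩ R k := by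
      rw [hf.f_inter (hR j).ce (hf.mg _ (hR k).ce (su _)).1 (su _) (su _),
        hf.fg _ (hR k).ce (su _)]
    have e2 : f (R j \ g (R k)) = f (R j) \ R k := by
      rw [hf.f_diff (hR j).ce (hf.mg _ (hR k).ce (su _)).1 (su _) (su _)
        ((hR j).ce.diff (hgc (hR k))), hf.fg _ (hR k).ce (su _)]
    rw [← e1, ← e2, ← hcf _ ((hR j).inter (hgc (hR k))), ← hcf _ ((hR j).diff (hgc (hR k)))]
    have := hind j (g (R k)) (hgc (hR k))
    rwa [Set.inter_assoc, Set.inter_assoc] at this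
  have hRT : ∀ j k, Comp (A ∩ (f (R j) ∩ R k)) ∨ Comp (A ∩ (R k \ f (R j))) := by
    intro j k
    have := hind k (f (R j)) (hT j)
    rwa [Set.inter_assoc, Set.inter_assoc, Set.inter_comm (R k) (f (R j))] at this
  have hex : ∀ j, ∃ k, ¬ Comp (A ∩ R j) → ¬ Comp (A ∩ (f (R j) ∩ R k)) := by
    intro j
    by_cases hj : Comp (A ∩ R j)
    · exact ⟨j, fun h1 => absurd hj h1⟩
    · by_contra hc
      push Not at hc
      apply hj
      rw [hcf _ (hR j)]
      have := comp_iUnion fun k => (hc k).2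
      rwa [← Set.inter_iUnion, ← Set.inter_iUnion, hu, Set.inter_univ] at this
  choose σ hσ using hex
  refine ⟨σ, ?_, ?_⟩
  · intro j k hj hk hjk
    by_contra hne
    have h1 := hσ j hj
    have h2 := hσ k hk
    rw [← hjk] at h2
    have h3 : Comp (A ∩ (R (σ j) \ f (R j))) := (hRT j (σ j)).resolve_left h1
    refine h2 (hmono ((hT k).inter (hR _)) ?_ h3)
    rintro x ⟨h4, h5⟩
    refine ⟨h5, fun h6 => ?_⟩
    have : x ∈ f (R j) ∩ f (R k) := ⟨h6, h4⟩
    rw [hTd j k hne] at this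
    exact this
  · intro j hj
    have h1 := hσ j hj
    refine ⟨fun h2 => h1 (hmono ((hT j).inter (hR _)) Set.inter_subset_right h2), ?_⟩
    have h3 : Comp (A ∩ (R (σ j) \ f (R j))) := (hRT j (σ j)).resolve_left h1
    have h4 : Comp (A ∩ (f (R j) \ R (σ j))) := (hTR j (σ j)).resolve_left h1
    have hD : Comp (f (R j) ∩ R (σ j)) := (hT j).inter (hR _)
    have r1 : Rel (R j) (P ∩ R j) (f (R j)) (P' ∩ f (R j)) :=
      ⟨f, g, hf.restrict (hR j).ce (su _), by
        rw [hf.f_inter h.ce₀ (hR j).ce (su _) (su _), hfP]⟩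
    have r2 := h'.move hD ((hT j).diff (hR (σ j))) (by
      ext x
      simp only [Set.mem_inter_iff, Set.mem_sdiff, Set.mem_empty_iff_false]
      tauto) h1 h4
    have r3 := h'.move hD ((hR (σ j)).diff (hT j)) (by
      ext x
      simp only [Set.mem_inter_iff, Set.mem_sdiff, Set.mem_empty_iff_false]
      tauto) h1 h3
    have e1 : f (R j) ∩ R (σ j) ∪ f (R j) \ R (σ j) = f (R j) := Set.inter_union_sdiff _ _
    have e2 : f (R j) ∩ R (σ j) ∪ R (σ j) \ f (R j) = R (σ j) := by
      rw [Set.inter_comm]; exact Set.inter_union_sdiff _ _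
    rw [e1] at r2
    rw [e2] at r3
    exact r1.trans ((r2.symm (h'.ce₀.inter hD.ce) Set.inter_subset_right).trans r3)

/-- if `A` has property (F), then so have its noncomputable indecomposable pieces -/
theorem pieces_of_propertyF (hA : CE A) (hind : ∀ i, Indecomposable (A ∩ R i))
    (hF : PropertyF (orbit A)) (i : Fin n) (hi : ¬ Comp (A ∩ R i)) :
    PropertyF (orbit (A ∩ R i)) := by
  classical
  rw [propertyF_iff (hA.inter (hR i).ce)]
  intro X X₁ X' X₁' hX hX'
  have hex : ∀ j, ∃ U U₁, Friedberg (A ∩ R j) U U₁ := fun j =>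
    exists_friedberg (hA.inter (hR j).ce)
  choose U U₁ hU using hex
  have hY : ∀ {X X₁ : Set ℕ}, Friedberg (A ∩ R i) X X₁ →
      ∀ j, Friedberg (A ∩ R j) (Function.update U i X j) (Function.update U₁ i X₁ j) := by
    intro X X₁ hX j
    by_cases hj : j = i
    · subst hj
      rw [Function.update_self, Function.update_self]
      exact hX
    · rw [Function.update_of_ne hj, Function.update_of_ne hj]
      exact hU j
  have h := Friedberg.glue hR hd hu (hY hX)
  have h' := Friedberg.glue hR hd hu (hY hX')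
  have hpart : ∀ {Y Y₁ : Fin n → Set ℕ}, (∀ j, Friedberg (A ∩ R j) (Y j) (Y₁ j)) →
      ∀ j, (⋃ k, Y k) ∩ R j = Y j := by
    intro Y Y₁ hY j
    ext x
    simp only [Set.mem_inter_iff, Set.mem_iUnion]
    constructor
    · rintro ⟨⟨k, hk⟩, hx⟩
      by_cases hkj : k = j
      · exact hkj ▸ hk
      · exfalso
        have : x ∈ R k ∩ R j := ⟨((hY k).sub₀ hk).2, hx⟩
        rw [hd k j hkj] at this
        exact this
    · exact fun hx => ⟨⟨j, hx⟩, ((hY j).sub₀ hx).2⟩
  have hrel := (auto_iff h.ce₀).1 ((propertyF_iff hA).1 hF _ _ _ _ h h')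
  obtain ⟨σ, hinj, hσ⟩ := exists_perm hR hd hu h h' hind hrel
  set Y : Fin n → Set ℕ := Function.update U i X with hYdef
  set Y' : Fin n → Set ℕ := Function.update U i X' with hYdef'
  have hYi : Y i = X := Function.update_self i X U
  have hYi' : Y' i = X' := Function.update_self i X' U
  have hYj : ∀ j, j ≠ i → Y j = Y' j := fun j hj => by
    rw [hYdef, hYdef', Function.update_of_ne hj, Function.update_of_ne hj]
  set J : Finset (Fin n) := Finset.univ.filter fun j => ¬ Comp (A ∩ R j) with hJ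
  have hmem : ∀ j, j ∈ J ↔ ¬ Comp (A ∩ R j) := fun j => by simp [hJ]
  have hgoal : Rel (R i) X (R i) X' := by
    by_contra hne
    set F := J.filter fun j => Rel (R i) X (R j) (Y j) with hF1
    set F' := J.filter fun j => Rel (R i) X (R j) (Y' j) with hF2
    have h1 : i ∈ F := by
      rw [hF1, Finset.mem_filter, hmem, hYi]
      exact ⟨hi, Rel.refl⟩
    have h2 : F' ⊆ F.erase i := by
      intro j hj
      rw [hF2, Finset.mem_filter] at hj
      have hji : j ≠ i := by
        rintro rfl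
        rw [hYi'] at hj
        exact hne hj.2
      rw [Finset.mem_erase, hF1, Finset.mem_filter, hYj j hji]
      exact ⟨hji, hj⟩
    have h3 : F.card ≤ F'.card := by
      refine Finset.card_le_card_of_injOn σ ?_ ?_
      · intro j hj
        have hj' : j ∈ F := hj
        rw [hF1, Finset.mem_filter, hmem] at hj'
        obtain ⟨h4, h5⟩ := hσ j hj'.1
        rw [hpart (hY hX), hpart (hY hX')] at h5
        show σ j ∈ F'
        rw [hF2, Finset.mem_filter, hmem]
        exact ⟨h4, hj'.2.trans h5⟩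
      · intro j hj k hk hjk
        have hj' : j ∈ F := hj
        have hk' : k ∈ F := hk
        rw [hF1, Finset.mem_filter, hmem] at hj' hk'
        exact hinj j k hj'.1 hk'.1 hjk
    have h4 := Finset.card_le_card h2
    rw [Finset.card_erase_of_mem h1] at h4
    have h5 : 0 < F.card := Finset.card_pos.2 ⟨i, h1⟩
    omega
  refine (auto_iff hX.ce₀).2 ?_
  exact ((hX.rel_univ (hR i) hi).symm hX.ce₀ fun x hx => (hX.sub₀ hx).2).trans
    (hgoal.trans (hX'.rel_univ (hR i) hi))

end

/-- computable sets -/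
theorem eq_empty_of_comp (hA : Comp A) (hF : PropertyF (orbit A)) : A = ∅ := by
  have h1 : Friedberg A ∅ A := ⟨comp_empty.ce, hA.ce, Set.empty_disjoint _, Set.empty_union _,
    fun W hW h => absurd (hW.diff hA) h⟩
  have h2 := (propertyF_iff hA.ce).1 hF _ _ _ _ h1 h1.symm
  obtain ⟨f, g, hf, hfe⟩ := (auto_iff comp_empty.ce).1 h2
  rw [← hfe, hf.f_empty]

theorem propertyF_empty : PropertyF (orbit (∅ : Set ℕ)) := by
  rw [propertyF_iff comp_empty.ce]
  intro A₀ A₁ B₀ B₁ h h'
  have e1 : A₀ = ∅ := Set.subset_empty_iff.1 h.sub₀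
  have e2 : B₀ = ∅ := Set.subset_empty_iff.1 h'.sub₀
  rw [e1, e2]
  exact Auto.refl comp_empty.ce

/-- The main theorem -/
theorem propertyF_decomposition {A : Set ℕ} (hA : CE A) {n : ℕ} {R : Fin n → Set ℕ}
    (hR : ∀ i, Comp (R i)) (hd : ∀ i j, i ≠ j → R i ∩ R j = ∅) (hu : ⋃ i, R i = Set.univ)
    (hind : ∀ i, Indecomposable (A ∩ R i)) :
    PropertyF (orbit A) ↔ A = ∅ ∨
      (¬ Comp A ∧ ∀ i, ¬ Comp (A ∩ R i) → PropertyF (orbit (A ∩ R i))) := by
  constructor
  · intro hF
    by_cases hc : Comp A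
    · exact Or.inl (eq_empty_of_comp hc hF)
    · exact Or.inr ⟨hc, fun i hi => pieces_of_propertyF hR hd hu hA hind hF i hi⟩
  · rintro (rfl | ⟨hc, h⟩)
    · exact propertyF_empty
    · exact propertyF_of_pieces hR hd hu hA hc h

end Pool.Agent.Helper66.FS
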