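import Mathlib

/-!
# Friedberg splittings: definitions
-/

namespace Pool.Agent.Helper66.FS

/-- `W` is computably enumerable (c.e.). -/
def CE (W : Set ℕ) : Prop := REPred fun n => n ∈ W

/-- `W` is computable. -/
def Comp (W : Set ℕ) : Prop := ComputablePred fun n => n ∈ W

/-- The lattice `ℰ` of c.e. sets, ordered by inclusion. -/
abbrev Lat : Type := {W : Set ℕ // CE W}

/-- `A` and `B` are c.e. sets and some automorphism of the lattice `ℰ` takes `A` to `B`. -/
def Auto (A B : Set ℕ) : Prop :=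
  ∃ (hA : CE A) (hB : CE B) (Φ : Lat ≃o Lat), Φ ⟨A, hA⟩ = ⟨B, hB⟩

/-- The orbit of the c.e. set `A`. -/
def orbit (A : Set ℕ) : Set (Set ℕ) := {B | Auto A B}

/-- `A = A₀ ⊔ A₁` is a Friedberg splitting of the c.e. set `A`. -/
structure Friedberg (A A₀ A₁ : Set ℕ) : Prop where
  ce₀ : CE A₀
  ce₁ : CE A₁
  disj : Disjoint A₀ A₁
  union : A₀ ∪ A₁ = A
  /-- if `W - A` is not c.e., then neither `W - A₀` nor `W - A₁` is c.e. -/
  cond : ∀ W, CE W → ¬ CE (W \ A) → ¬ CE (W \ A₀) ∧ ¬ CE (W \ A₁)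

/-- Property (F) of an orbit: the first halves of any two Friedberg splittings of any two members
are automorphic. -/
def PropertyF (O : Set (Set ℕ)) : Prop :=
  ∀ A ∈ O, ∀ B ∈ O, ∀ A₀ A₁ B₀ B₁ : Set ℕ,
    Friedberg A A₀ A₁ → Friedberg B B₀ B₁ → Auto A₀ B₀

/-- The Friedberg halves of the members of `O`: the first halves of their Friedberg splittings. -/
def halves (O : Set (Set ℕ)) : Set (Set ℕ) :=
  {A₀ | ∃ A ∈ O, ∃ A₁ : Set ℕ, Friedberg A A₀ A₁}

/-- No computable set splits `A` into two noncomputable parts. -/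
def Indecomposable (A : Set ℕ) : Prop :=
  ∀ S : Set ℕ, Comp S → Comp (A ∩ S) ∨ Comp (A ∩ Sᶜ)

end Pool.Agent.Helper66.FS
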