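import Pool.Agent.Helper66.FS.CE

/-!
# Friedberg's splitting theorem
-/

namespace Pool.Agent.Helper66.FS

open Nat.Partrec (Code)
open Nat.Partrec.Code

namespace Fried

/-- the `s`-th approximation of the domain of a code -/
def av (a : Code) (s x : ℕ) : Bool := (evaln s a x).isSome

theorem av_mono {a : Code} {s s' x : ℕ} (h : s ≤ s') (hx : av a s x = true) :
    av a s' x = true := by
  unfold av at *
  rw [Option.isSome_iff_exists] at *
  obtain ⟨y, hy⟩ := hx
  exact ⟨y, evaln_mono h hy⟩

theorem av_zero {a : Code} {x : ℕ} : av a 0 x = false := by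
  unfold av
  by_contra h
  rw [Bool.not_eq_false, Option.isSome_iff_exists] at h
  obtain ⟨y, hy⟩ := h
  exact absurd (evaln_bound hy) (Nat.not_lt_zero _)

theorem av_iff {a : Code} {x : ℕ} : (eval a x).Dom ↔ ∃ s, av a s x = true := by
  rw [Part.dom_iff_mem]
  simp only [av, Option.isSome_iff_exists]
  constructor
  · rintro ⟨y, hy⟩
    obtain ⟨k, hk⟩ := evaln_complete.1 hy
    exact ⟨k, y, hk⟩
  · rintro ⟨k, y, hk⟩
    exact ⟨y, evaln_sound hk⟩

theorem av_prim : Primrec fun q : (ℕ × Code) × ℕ => av q.1.2 q.1.1 q.2 :=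
  Primrec.option_isSome.comp primrec_evaln

/-- the approximation with an index -/
def w (e s x : ℕ) : Bool := av (Denumerable.ofNat Code e) s x

theorem w_prim : Primrec fun q : ℕ × ℕ × ℕ => w q.1 q.2.1 q.2.2 :=
  av_prim.comp (.pair (.pair (Primrec.fst.comp .snd) ((Primrec.ofNat Code).comp .fst))
    (Primrec.snd.comp .snd))

/-- the requirement `n` wants `x` at the stage `s` -/
def Act (L : List (ℕ × Bool)) (s x n : ℕ) : Prop :=
  w n.div2 s x = true ∧ ¬ ∃ p ∈ L, p.2 = n.bodd ∧ w n.div2 s p.1 = true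

instance (L : List (ℕ × Bool)) (s x n : ℕ) : Decidable (Act L s x n) := by
  unfold Act; infer_instance

theorem act_prim :
    PrimrecRel fun (q : List (ℕ × Bool) × ℕ × ℕ) (n : ℕ) => Act q.1 q.2.1 q.2.2 n := by
  have h1 : PrimrecRel fun (p : ℕ × Bool) (b : ℕ × ℕ) =>
      p.2 = b.1.bodd ∧ w b.1.div2 b.2 p.1 = true := by
    refine PrimrecPred.and ?_ ?_
    · exact Primrec.eq.comp (Primrec.snd.comp .fst) (Primrec.nat_bodd.comp (Primrec.fst.comp .snd))
    · exact Primrec.eq.comp (w_prim.comp (.pair (Primrec.nat_div2.comp (Primrec.fst.comp .snd))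
        (.pair (Primrec.snd.comp .snd) (Primrec.fst.comp .fst)))) (Primrec.const true)
  have h2 := h1.exists_mem_list
  refine PrimrecPred.and ?_ (PrimrecPred.not ?_)
  · exact Primrec.eq.comp (w_prim.comp (.pair (Primrec.nat_div2.comp .snd)
      (.pair (Primrec.fst.comp (Primrec.snd.comp .fst))
        (Primrec.snd.comp (Primrec.snd.comp .fst))))) (Primrec.const true)
  · exact h2.comp (Primrec.fst.comp .fst) (.pair .snd (Primrec.fst.comp (Primrec.snd.comp .fst)))

/-- the requirement which gets `x` -/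
def pick (L : List (ℕ × Bool)) (s x : ℕ) : ℕ :=
  (List.range s).findIdx fun n => decide (Act L s x n)

theorem pick_prim :
    Primrec fun q : List (ℕ × Bool) × ℕ × ℕ => pick q.1 q.2.1 q.2.2 :=
  Primrec.list_findIdx (Primrec.list_range.comp (Primrec.fst.comp .snd)) act_prim.decide

theorem pick_spec {L : List (ℕ × Bool)} {s x : ℕ} (h : pick L s x < s) :
    Act L s x (pick L s x) := by
  have h1 : (List.range s).findIdx (fun n => decide (Act L s x n)) < (List.range s).length := by
    rw [List.length_range]; exact h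
  have h2 := List.findIdx_getElem (w := h1)
  rw [List.getElem_range] at h2
  exact of_decide_eq_true h2

theorem pick_le {L : List (ℕ × Bool)} {s x n : ℕ} (h : Act L s x n) :
    pick L s x ≤ n := by
  by_contra hc
  rw [not_le] at hc
  have h2 := List.not_of_lt_findIdx hc
  rw [List.getElem_range] at h2
  simp [h] at h2

variable (a : Code)

/-- the number enumerated at the stage `s` -/
def ent (s : ℕ) : Option ℕ :=
  if av a (s.unpair.2 + 1) s.unpair.1 = true ∧ ¬ av a s.unpair.2 s.unpair.1 = true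
  then some s.unpair.1 else none

theorem ent_prim : Primrec (ent a) := by
  refine Primrec.ite (PrimrecPred.and ?_ (PrimrecPred.not ?_)) ?_ (Primrec.const none)
  · exact Primrec.eq.comp (av_prim.comp (.pair (.pair (Primrec.succ.comp (Primrec.snd.comp
      Primrec.unpair)) (.const a)) (Primrec.fst.comp Primrec.unpair))) (Primrec.const true)
  · exact Primrec.eq.comp (av_prim.comp (.pair (.pair (Primrec.snd.comp
      Primrec.unpair) (.const a)) (Primrec.fst.comp Primrec.unpair))) (Primrec.const true)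
  · exact Primrec.option_some.comp (Primrec.fst.comp Primrec.unpair)

/-- one step of the construction -/
def step (s : ℕ) (L : List (ℕ × Bool)) : List (ℕ × Bool) :=
  Option.casesOn (ent a s) L fun x => (x, (pick L s x).bodd) :: L

theorem step_prim : Primrec₂ (step a) := by
  refine Primrec.option_casesOn ((ent_prim a).comp .fst) .snd ?_
  refine Primrec.list_cons.comp (.pair .snd (Primrec.nat_bodd.comp (pick_prim.comp
    (.pair (Primrec.snd.comp .fst) (.pair (Primrec.fst.comp .fst) .snd))))) (Primrec.snd.comp .fst)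

/-- the construction -/
def st : ℕ → List (ℕ × Bool)
  | 0 => []
  | s + 1 => step a s (st s)

theorem st_prim : Primrec (st a) :=
  (Primrec.nat_rec₁ [] (step_prim a)).of_eq fun s => by
    induction s with
    | zero => rfl
    | succ s ih => rw [st, ← ih]

variable {a}

theorem ent_iff {s x : ℕ} : ent a s = some x ↔
    s.unpair.1 = x ∧ av a (s.unpair.2 + 1) x = true ∧ ¬ av a s.unpair.2 x = true := by
  unfold ent
  split_ifs with h
  · rw [Option.some_inj]
    constructor
    · rintro rfl
      exact ⟨rfl, h⟩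
    · exact fun h' => h'.1
  · constructor
    · intro h'; exact absurd h' (by simp)
    · rintro ⟨rfl, h'⟩
      exact absurd h' h

theorem ent_unique {s s' x : ℕ} (h : ent a s = some x) (h' : ent a s' = some x) : s = s' := by
  obtain ⟨h1, h2, h3⟩ := ent_iff.1 h
  obtain ⟨h1', h2', h3'⟩ := ent_iff.1 h'
  have h4 : s.unpair.2 = s'.unpair.2 := by
    rcases lt_trichotomy s.unpair.2 s'.unpair.2 with h | h | h
    · exact absurd (av_mono h h2) h3'
    · exact h
    · exact absurd (av_mono h h2') h3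
  rw [← Nat.pair_unpair s, ← Nat.pair_unpair s', h1, h1', h4]

theorem ent_exists {x : ℕ} (h : (eval a x).Dom) : ∃ s, ent a s = some x := by
  classical
  obtain ⟨t, ht⟩ := av_iff.1 h
  have h1 : ∃ t, av a t x = true := ⟨t, ht⟩
  have h2 := Nat.find_spec h1
  have h3 : Nat.find h1 ≠ 0 := fun h => by
    rw [h, av_zero] at h2
    exact absurd h2 (by simp)
  obtain ⟨k, hk⟩ := Nat.exists_eq_succ_of_ne_zero h3
  refine ⟨Nat.pair x k, ent_iff.2 ?_⟩
  rw [Nat.unpair_pair]
  refine ⟨rfl, ?_, ?_⟩
  · rw [hk] at h2; exact h2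
  · exact Nat.find_min h1 (by rw [hk]; exact Nat.lt_succ_self k)

theorem ent_dom {s x : ℕ} (h : ent a s = some x) : (eval a x).Dom :=
  av_iff.2 ⟨_, (ent_iff.1 h).2.1⟩

/-- if `x` enters at the stage `s`, then it is not in the approximation with the same number -/
theorem ent_late {s s' x : ℕ} (h : ent a s = some x) (h' : ¬ av a s' x = true) : s' ≤ s := by
  obtain ⟨h1, h2, h3⟩ := ent_iff.1 h
  have h4 : s' ≤ s.unpair.2 := by
    by_contra hc
    rw [not_le] at hc
    exact h' (av_mono hc h2)
  exact h4.trans (Nat.unpair_right_le s)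

theorem step_none {s : ℕ} {L : List (ℕ × Bool)} (h : ent a s = none) : step a s L = L := by
  unfold step; rw [h]

theorem step_some {s x : ℕ} {L : List (ℕ × Bool)} (h : ent a s = some x) :
    step a s L = (x, (pick L s x).bodd) :: L := by
  unfold step; rw [h]

theorem st_succ (s : ℕ) : st a (s + 1) = step a s (st a s) := rfl

theorem st_mono {s s' : ℕ} (h : s ≤ s') : st a s ⊆ st a s' := by
  induction s', h using Nat.le_induction with
  | base => exact List.Subset.refl _
  | succ s' _ ih =>
    intro p hp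
    rw [st_succ]
    rcases h : ent a s' with _ | x
    · rw [step_none h]; exact ih hp
    · rw [step_some h]; exact List.mem_cons_of_mem _ (ih hp)

theorem mem_st {s x : ℕ} {i : Bool} (h : (x, i) ∈ st a s) :
    ∃ s' < s, ent a s' = some x ∧ i = (pick (st a s') s' x).bodd := by
  induction s with
  | zero => exact absurd h (by simp [st])
  | succ s ih =>
    rw [st_succ] at h
    rcases h' : ent a s with _ | y
    · rw [step_none h'] at h
      obtain ⟨s', h1, h2⟩ := ih h
      exact ⟨s', h1.trans (Nat.lt_succ_self s), h2⟩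
    · rw [step_some h', List.mem_cons] at h
      rcases h with h | h
      · rw [Prod.mk.injEq] at h
        obtain ⟨rfl, rfl⟩ := h
        exact ⟨s, Nat.lt_succ_self s, h', rfl⟩
      · obtain ⟨s', h1, h2⟩ := ih h
        exact ⟨s', h1.trans (Nat.lt_succ_self s), h2⟩

/-- one half -/
def half (a : Code) (i : Bool) : Set ℕ := {x | ∃ s, (x, i) ∈ st a s}

theorem half_ce (i : Bool) : CE (half a i) := by
  classical
  have h1 : PrimrecRel fun (p : ℕ × Bool) (b : ℕ × Bool) => p = b := Primrec.eq
  have h2 : PrimrecRel fun (x s : ℕ) => ∃ p ∈ st a s, p = (x, i) :=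
    h1.exists_mem_list.comp ((st_prim a).comp .snd) (.pair .fst (.const i))
  have h3 : Computable₂ fun (x s : ℕ) => decide (∃ p ∈ st a s, p = (x, i)) :=
    h2.decide.to_comp
  refine (ce_exists h3).of_eq fun x => ?_
  simp [half]

theorem half_subset {i : Bool} {x : ℕ} (h : x ∈ half a i) : (eval a x).Dom := by
  obtain ⟨s, hs⟩ := h
  obtain ⟨s', _, h1, _⟩ := mem_st hs
  exact ent_dom h1

theorem half_or {x : ℕ} (h : (eval a x).Dom) : x ∈ half a false ∨ x ∈ half a true := by
  obtain ⟨s, hs⟩ := ent_exists h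
  have h1 : (x, (pick (st a s) s x).bodd) ∈ st a (s + 1) := by
    rw [st_succ, step_some hs]
    exact List.mem_cons_self
  rcases h2 : (pick (st a s) s x).bodd with _ | _
  · exact Or.inl ⟨s + 1, h2 ▸ h1⟩
  · exact Or.inr ⟨s + 1, h2 ▸ h1⟩

theorem half_disj {x : ℕ} (h : x ∈ half a false) (h' : x ∈ half a true) : False := by
  obtain ⟨s, hs⟩ := h
  obtain ⟨s', hs'⟩ := h'
  obtain ⟨t, _, h1, h2⟩ := mem_st hs
  obtain ⟨t', _, h1', h2'⟩ := mem_st hs'
  obtain rfl := ent_unique h1 h1'
  rw [← h2] at h2'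
  exact absurd h2' (by simp)

/-- the requirement `n` acts at the stage `s` -/
def Acts (a : Code) (n s : ℕ) : Prop := ∃ x, ent a s = some x ∧ pick (st a s) s x = n ∧ n < s

theorem acts_once {n s s' : ℕ} (h : Acts a n s) (h' : Acts a n s') : s = s' := by
  have key : ∀ {s s'}, Acts a n s → Acts a n s' → ¬ s < s' := by
    rintro s s' ⟨x, hx, hp, hn⟩ ⟨y, hy, hp', hn'⟩ hlt
    have h1 : Act (st a s) s x n := hp ▸ pick_spec (hp.symm ▸ hn)
    have h2 : Act (st a s') s' y n := hp' ▸ pick_spec (hp'.symm ▸ hn')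
    refine h2.2 ⟨(x, n.bodd), ?_, rfl, av_mono hlt.le h1.1⟩
    apply st_mono (Nat.succ_le_of_lt hlt)
    rw [Nat.succ_eq_add_one, st_succ, step_some hx, hp]
    exact List.mem_cons_self
  rcases lt_trichotomy s s' with hl | hl | hl
  · exact absurd hl (key h h')
  · exact hl
  · exact absurd hl (key h' h)

theorem acts_bound (n : ℕ) : ∃ N, ∀ m < n, ∀ s, Acts a m s → s < N := by
  induction n with
  | zero => exact ⟨0, fun m hm => absurd hm (Nat.not_lt_zero m)⟩
  | succ n ih =>
    obtain ⟨N, hN⟩ := ih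
    by_cases h : ∃ s, Acts a n s
    · obtain ⟨s₀, h₀⟩ := h
      refine ⟨max N (s₀ + 1), fun m hm s hs => ?_⟩
      rcases Nat.lt_succ_iff_lt_or_eq.1 hm with h1 | rfl
      · exact (hN m h1 s hs).trans_le (le_max_left _ _)
      · rw [acts_once hs h₀]
        exact (Nat.lt_succ_self s₀).trans_le (le_max_right _ _)
    · refine ⟨N, fun m hm s hs => ?_⟩
      rcases Nat.lt_succ_iff_lt_or_eq.1 hm with h1 | rfl
      · exact hN m h1 s hs
      · exact absurd ⟨s, hs⟩ h

/-- infinitely many elements of `W` enter `A` after they have entered `W` -/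
theorem unbounded {A W : Set ℕ} (hA : ∀ x, x ∈ A ↔ (eval a x).Dom) {e : ℕ}
    (hW : ∀ x, x ∈ W ↔ ∃ s, w e s x = true) (h : ¬ CE (W \ A)) (N : ℕ) :
    ∃ s, N ≤ s ∧ ∃ x, ent a s = some x ∧ w e s x = true := by
  classical
  by_contra hc
  push Not at hc
  apply h
  have hV : CE {x | ∃ s, (w e s x && !av a s x) = true} := by
    apply ce_exists
    have h1 : Primrec₂ fun (x s : ℕ) => w e s x :=
      w_prim.comp (.pair (.const e) (.pair .snd .fst))
    have h2 : Primrec₂ fun (x s : ℕ) => av a s x :=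
      av_prim.comp (.pair (.pair .snd (.const a)) .fst)
    exact (Primrec.and.comp h1 (Primrec.not.comp h2)).to_comp
  set V := {x | ∃ s, (w e s x && !av a s x) = true} with hVdef
  set F := V ∩ A with hF
  have hfin : F.Finite := by
    have h1 : F ⊆ ⋃ s ∈ Finset.range N, {x | ent a s = some x} := by
      rintro x ⟨⟨s, hs⟩, hx⟩
      rw [Bool.and_eq_true, Bool.not_eq_true'] at hs
      obtain ⟨s', hs'⟩ := ent_exists ((hA x).1 hx)
      have h2 : s ≤ s' := ent_late hs' (by rw [hs.2]; simp)
      have h3 : s' < N := by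
        by_contra h4
        exact hc s' (not_lt.1 h4) x hs' (av_mono h2 hs.1)
      simp only [Set.mem_iUnion]
      exact ⟨s', Finset.mem_range.2 h3, hs'⟩
    refine Set.Finite.subset (Set.Finite.biUnion (Finset.finite_toSet _) fun s _ => ?_) h1
    apply Set.Subsingleton.finite
    intro x hx y hy
    have h5 : ent a s = some x := hx
    have h6 : ent a s = some y := hy
    rw [h5] at h6
    exact Option.some_inj.1 h6
  have he : W \ A = V \ F := by
    ext x
    constructor
    · rintro ⟨h1, h2⟩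
      refine ⟨?_, fun h => h2 h.2⟩
      obtain ⟨s, hs⟩ := (hW x).1 h1
      refine ⟨s, ?_⟩
      rw [Bool.and_eq_true, Bool.not_eq_true']
      refine ⟨hs, ?_⟩
      by_contra h3
      rw [Bool.not_eq_false] at h3
      exact h2 ((hA x).2 (av_iff.2 ⟨s, h3⟩))
    · rintro ⟨h1, h2⟩
      refine ⟨?_, fun h => h2 ⟨h1, h⟩⟩
      obtain ⟨s, hs⟩ := h1
      rw [Bool.and_eq_true] at hs
      exact (hW x).2 ⟨s, hs.1⟩
  rw [he]
  exact hV.diff (comp_of_finite hfin)

theorem meets {A W : Set ℕ} (hA : ∀ x, x ∈ A ↔ (eval a x).Dom) (hW : CE W) (h : ¬ CE (W \ A))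
    (i : Bool) : ∃ x ∈ W, x ∈ half a i := by
  obtain ⟨c, hc⟩ := hW.code
  set e := Encodable.encode c with he
  have hW' : ∀ x, x ∈ W ↔ ∃ s, w e s x = true := by
    intro x
    rw [hc, av_iff]
    simp only [w, he, Denumerable.ofNat_encode]
  obtain ⟨n, hn, hn'⟩ : ∃ n : ℕ, n.div2 = e ∧ n.bodd = i :=
    ⟨Nat.bit i e, Nat.div2_bit i e, Nat.bodd_bit i e⟩
  obtain ⟨N, hN⟩ := acts_bound (a := a) n
  obtain ⟨s, hs, x, hx, hw⟩ := unbounded hA hW' h (max N (n + 1))
  have hns : n < s := lt_of_lt_of_le (Nat.lt_succ_self n) ((le_max_right _ _).trans hs)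
  by_cases hact : Act (st a s) s x n
  · have h1 := pick_le hact
    have h2 : ¬ pick (st a s) s x < n := fun h3 => by
      have h4 := hN _ h3 s ⟨x, hx, rfl, h3.trans hns⟩
      exact absurd h4 (not_lt.2 ((le_max_left _ _).trans hs))
    have h3 : pick (st a s) s x = n := le_antisymm h1 (not_lt.1 h2)
    refine ⟨x, (hW' x).2 ⟨s, hw⟩, s + 1, ?_⟩
    rw [st_succ, step_some hx, h3, hn']
    exact List.mem_cons_self
  · unfold Act at hact
    rw [hn, hn'] at hact
    have : ∃ p ∈ st a s, p.2 = i ∧ w e s p.1 = true := by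
      by_contra h5
      exact hact ⟨hw, h5⟩
    obtain ⟨p, hp, h6, h7⟩ := this
    exact ⟨p.1, (hW' p.1).2 ⟨s, h7⟩, s, h6 ▸ hp⟩

end Fried

/-- **Friedberg's splitting theorem** -/
theorem exists_friedberg {A : Set ℕ} (hA : CE A) : ∃ A₀ A₁, Friedberg A A₀ A₁ := by
  obtain ⟨a, ha⟩ := hA.code
  have hsub : ∀ i, Fried.half a i ⊆ A := fun i x hx => (ha x).2 (Fried.half_subset hx)
  have hcond : ∀ i W, CE W → ¬ CE (W \ A) → ¬ CE (W \ Fried.half a i) := by
    intro i W hW h h'
    have e : (W \ Fried.half a i) \ A = W \ A := by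
      ext x
      have := @hsub i x
      simp only [Set.mem_sdiff]
      tauto
    obtain ⟨x, hx, hx'⟩ := Fried.meets ha h' (by rw [e]; exact h) i
    exact hx.2 hx'
  refine ⟨Fried.half a false, Fried.half a true, Fried.half_ce _, Fried.half_ce _, ?_, ?_,
    fun W hW h => ⟨hcond _ W hW h, hcond _ W hW h⟩⟩
  · rw [Set.disjoint_left]
    exact fun x h h' => Fried.half_disj h h'
  · apply Set.Subset.antisymm
    · exact Set.union_subset (hsub _) (hsub _)
    · exact fun x hx => Fried.half_or ((ha x).1 hx)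

end Pool.Agent.Helper66.FS
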