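import Pool.Agent.Helper66.FS.Main

/-!
# Halves of halves
-/

namespace Pool.Agent.Helper66.FS

variable {A A₀ A₁ P : Set ℕ}

theorem half_mem_halves (hA : CE A) (h : Friedberg A A₀ A₁) : A₀ ∈ halves (orbit A) :=
  ⟨A, Auto.refl hA, A₁, h⟩

/-- an automorphic copy of a half is a half -/
theorem halves_closed {O : Set (Set ℕ)} (hO : ∀ A ∈ O, ∀ B, Auto A B → B ∈ O) {B₀ : Set ℕ}
    (h : A₀ ∈ halves O) (h' : Auto A₀ B₀) : B₀ ∈ halves O := by
  obtain ⟨A, hA, A₁, h₁⟩ := h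
  obtain ⟨f, g, hf, rfl⟩ := (auto_iff h₁.ce₀).1 h'
  exact ⟨f A, hO A hA _ ((auto_iff h₁.ce).2 ⟨f, g, hf, rfl⟩), f A₁, h₁.map hf⟩

theorem orbit_closed : ∀ B ∈ orbit A, ∀ C, Auto B C → C ∈ orbit A :=
  fun _ hB _ hC => Auto.trans hB hC

theorem propertyF_iff_halves (hA : CE A) : PropertyF (orbit A) ↔
    ∃ P, CE P ∧ halves (orbit A) = orbit P ∧ halves (orbit P) = orbit P := by
  constructor
  · intro hF
    obtain ⟨P, P', hP⟩ := exists_friedberg hA
    refine ⟨P, hP.ce₀, ?_, ?_⟩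
    · ext B
      constructor
      · rintro ⟨C, hC, C₁, h⟩
        exact hF A (Auto.refl hA) C hC _ _ _ _ hP h
      · exact fun h => halves_closed orbit_closed (half_mem_halves hA hP) h
    · have h2 : ∀ {B₀ B₁}, Friedberg P B₀ B₁ → Auto P B₀ := fun h =>
        hF A (Auto.refl hA) A (Auto.refl hA) _ _ _ _ hP (hP.half h)
      ext B
      constructor
      · rintro ⟨C, hC, C₁, h⟩
        obtain ⟨B₀, B₁, h3, h4⟩ := (Auto.symm hC).friedberg h
        exact (h2 h3).trans h4.symm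
      · intro h
        obtain ⟨Q, Q', hQ⟩ := exists_friedberg hP.ce₀
        exact halves_closed orbit_closed (half_mem_halves hP.ce₀ hQ) ((h2 hQ).symm.trans h)
  · rintro ⟨P, _, h1, _⟩
    rw [propertyF_iff hA]
    intro A₀ A₁ B₀ B₁ h h'
    have h2 : A₀ ∈ orbit P := h1 ▸ half_mem_halves hA h
    have h3 : B₀ ∈ orbit P := h1 ▸ half_mem_halves hA h'
    exact (Auto.symm h2).trans h3

end Pool.Agent.Helper66.FS
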