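import Pool.Agent.Helper66.FS.CE

/-!
# Computable bijections between infinite computable sets; infinite computable subsets
-/

namespace Pool.Agent.Helper66.FS

open Nat.Partrec (Code)
open Nat.Partrec.Code
open Classical in
/-- the number of elements of `R` below `n` -/
noncomputable def cnt (R : Set ℕ) (n : ℕ) : ℕ := Nat.count (fun m => m ∈ R) n

/-- the `k`-th element of `R` -/
noncomputable def nth (R : Set ℕ) (k : ℕ) : ℕ := Nat.nth (fun m => m ∈ R) k

theorem dec_eq {α : Type} [Primcodable α] {f g : α → ℕ} (hf : Computable f)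
    (hg : Computable g) : Computable fun a => decide (f a = g a) :=
  Computable₂.comp (Primrec.eq (α := ℕ)).decide.to_comp hf hg

theorem dec_le {α : Type} [Primcodable α] {f g : α → ℕ} (hf : Computable f)
    (hg : Computable g) : Computable fun a => decide (f a ≤ g a) :=
  Computable₂.comp Primrec.nat_le.decide.to_comp hf hg

theorem cnt_computable {R : Set ℕ} (hR : Comp R) : Computable (cnt R) := by
  classical
  have h : Computable₂ fun (_ : ℕ) (q : ℕ × ℕ) => bif decide (q.1 ∈ R) then q.2 + 1 else q.2 :=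
    Computable.cond ((ComputablePred.decide hR).comp (Computable.fst.comp Computable.snd))
      (Computable.succ.comp (Computable.snd.comp Computable.snd))
      (Computable.snd.comp Computable.snd)
  refine (Computable.nat_rec Computable.id (Computable.const 0) h).of_eq fun n => ?_
  dsimp only [id, cnt]
  induction n with
  | zero => simp
  | succ n ih =>
    rw [Nat.count_succ, ← ih]
    by_cases hn : n ∈ R <;> simp [hn]

theorem nth_mem {R : Set ℕ} (h : R.Infinite) (k : ℕ) : nth R k ∈ R :=
  Nat.nth_mem_of_infinite h k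

theorem cnt_nth {R : Set ℕ} (h : R.Infinite) (k : ℕ) : cnt R (nth R k) = k := by
  classical
  unfold cnt nth
  convert Nat.count_nth_of_infinite (p := fun m => m ∈ R) h k

theorem nth_cnt {R : Set ℕ} {x : ℕ} (hx : x ∈ R) : nth R (cnt R x) = x := by
  classical
  unfold cnt nth
  convert Nat.nth_count (p := fun m => m ∈ R) hx

theorem nth_computable {R : Set ℕ} (hR : Comp R) (h : R.Infinite) : Computable (nth R) := by
  classical
  have hex : ∀ k, ∃ n, n ∈ R ∧ cnt R n = k := fun k => ⟨nth R k, nth_mem h k, cnt_nth h k⟩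
  have hc : ComputablePred fun p : ℕ × ℕ => p.2 ∈ R ∧ cnt R p.2 = p.1 := by
    have h1 : Computable fun p : ℕ × ℕ => decide (p.2 ∈ R) :=
      (ComputablePred.decide hR).comp Computable.snd
    have h2 : Computable fun p : ℕ × ℕ => decide (cnt R p.2 = p.1) :=
      dec_eq ((cnt_computable hR).comp Computable.snd) Computable.fst
    refine Computable.computablePred ((Primrec.and.to_comp.comp h1 h2).of_eq fun p => ?_)
    exact (Bool.decide_and _ _).symm
  refine (Computable.find (P := fun k n => n ∈ R ∧ cnt R n = k) hc hex).of_eq fun k => ?_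
  have h1 := Nat.find_spec (hex k)
  rw [← nth_cnt h1.1, h1.2]

/-- the map from subsets of `R` to subsets of `S` -/
noncomputable def tr (R S : Set ℕ) (W : Set ℕ) : Set ℕ := {y | y ∈ S ∧ nth R (cnt S y) ∈ W}

theorem tr_ce {R S W : Set ℕ} (hR : Comp R) (hS : Comp S) (iR : R.Infinite) (hW : CE W) :
    CE (tr R S W) :=
  hS.ce.inter (hW.preimage ((nth_computable hR iR).comp (cnt_computable hS)))

theorem tr_subset {R S W : Set ℕ} : tr R S W ⊆ S := fun _ h => h.1

theorem tr_mono {R S W W' : Set ℕ} (h : W ⊆ W') : tr R S W ⊆ tr R S W' :=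
  fun _ hy => ⟨hy.1, h hy.2⟩

theorem tr_tr {R S W : Set ℕ} (iS : S.Infinite) (hW : W ⊆ R) :
    tr S R (tr R S W) = W := by
  ext x
  constructor
  · rintro ⟨hx, _, h⟩
    rwa [cnt_nth iS, nth_cnt hx] at h
  · intro hx
    refine ⟨hW hx, nth_mem iS _, ?_⟩
    rwa [cnt_nth iS, nth_cnt (hW hx)]

theorem tr_self {R S : Set ℕ} (iR : R.Infinite) : tr R S R = S := by
  ext x
  exact ⟨fun h => h.1, fun h => ⟨h, nth_mem iR _⟩⟩

theorem tr_empty {R S : Set ℕ} : tr R S ∅ = ∅ := by
  ext x
  exact ⟨fun h => h.2, fun h => h.elim⟩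

/-- an infinite c.e. set has an infinite computable subset with infinite complement in it -/
theorem exists_comp_subset {X : Set ℕ} (hX : CE X) (hinf : X.Infinite) :
    ∃ D, Comp D ∧ D ⊆ X ∧ D.Infinite ∧ (X \ D).Infinite := by
  classical
  obtain ⟨c, hc⟩ := hX.code
  have hmem : ∀ x k, (evaln k c x).isSome = true → x ∈ X := by
    intro x k h
    obtain ⟨v, hv⟩ := Option.isSome_iff_exists.1 h
    exact (hc x).2 (Part.dom_iff_mem.2 ⟨v, evaln_sound hv⟩)
  let P : ℕ → ℕ → Prop := fun y m => y < m.unpair.1 ∧ (evaln m.unpair.2 c m.unpair.1).isSome = true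
  have hex : ∀ y, ∃ m, P y m := by
    intro y
    obtain ⟨x, hx, hyx⟩ := hinf.exists_gt y
    obtain ⟨v, hv⟩ := Part.dom_iff_mem.1 ((hc x).1 hx)
    obtain ⟨k, hk⟩ := evaln_complete.1 hv
    refine ⟨Nat.pair x k, ?_, ?_⟩
    · rw [Nat.unpair_pair]
      exact hyx
    · rw [Nat.unpair_pair]
      exact Option.isSome_iff_exists.2 ⟨v, hk⟩
  have hP : ComputablePred fun p : ℕ × ℕ => P p.1 p.2 := by
    have u1 : Primrec fun p : ℕ × ℕ => p.2.unpair.1 :=
      Primrec.fst.comp (Primrec.unpair.comp Primrec.snd)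
    have u2 : Primrec fun p : ℕ × ℕ => p.2.unpair.2 :=
      Primrec.snd.comp (Primrec.unpair.comp Primrec.snd)
    have h1 : Primrec fun p : ℕ × ℕ => decide (p.1 < p.2.unpair.1) :=
      (Primrec.nat_lt.comp Primrec.fst u1).decide
    have h2 : Primrec fun p : ℕ × ℕ => (evaln p.2.unpair.2 c p.2.unpair.1).isSome :=
      Primrec.option_isSome.comp (primrec_evaln.comp ((u2.pair (Primrec.const c)).pair u1))
    refine Computable.computablePred ((Primrec.and.comp h1 h2).to_comp.of_eq fun p => ?_)
    simp [P, Bool.decide_and]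
  obtain ⟨next, hnext, hgt, hin⟩ : ∃ next : ℕ → ℕ, Computable next ∧ (∀ y, y < next y) ∧
      ∀ y, next y ∈ X :=
    ⟨fun y => (Nat.find (hex y)).unpair.1,
      Computable.fst.comp (Computable.unpair.comp (Computable.find hP hex)),
      fun y => (Nat.find_spec (hex y)).1, fun y => hmem _ _ (Nat.find_spec (hex y)).2⟩
  obtain ⟨h, hh, h0, hsucc⟩ : ∃ h : ℕ → ℕ, Computable h ∧ h 0 = next 0 ∧
      ∀ n, h (n + 1) = next (h n) := by
    have : Computable₂ fun (_ : ℕ) (q : ℕ × ℕ) => next q.2 :=
      hnext.comp (Computable.snd.comp Computable.snd)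
    exact ⟨fun n => Nat.rec (motive := fun _ => ℕ) (next 0) (fun _ IH => next IH) n,
      (Computable.nat_rec Computable.id (Computable.const (next 0)) this).of_eq fun n => rfl,
      rfl, fun n => rfl⟩
  have hmono : StrictMono h := strictMono_nat_of_lt_succ fun n => by rw [hsucc]; exact hgt _
  have hX' : ∀ n, h n ∈ X := by
    intro n
    cases n with
    | zero => rw [h0]; exact hin 0
    | succ n => rw [hsucc]; exact hin _
  have hex2 : ∀ x, ∃ n, x ≤ h (2 * n) := fun x =>
    ⟨x, (by omega : x ≤ 2 * x).trans (hmono.le_apply)⟩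
  have hd : Computable fun n : ℕ => 2 * n := Primrec.nat_double.to_comp
  have hh2 : Computable fun n => h (2 * n) := hh.comp hd
  have hP2 : ComputablePred fun p : ℕ × ℕ => p.1 ≤ h (2 * p.2) :=
    Computable.computablePred (dec_le Computable.fst (hh2.comp Computable.snd))
  have hn := Computable.find hP2 hex2
  refine ⟨Set.range fun n => h (2 * n), ?_, ?_, ?_, ?_⟩
  · have h4 : Computable fun x => decide (h (2 * Nat.find (hex2 x)) = x) :=
      dec_eq (hh2.comp hn) Computable.id
    refine (Computable.computablePred h4).of_eq fun x => ?_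
    constructor
    · intro hx
      exact ⟨_, hx⟩
    · rintro ⟨m, hm⟩
      have hm' : h (2 * m) = x := hm
      have h5 : Nat.find (hex2 x) ≤ m := Nat.find_min' (hex2 x) hm'.ge
      have h6 := Nat.find_spec (hex2 x)
      have h7 : h (2 * Nat.find (hex2 x)) ≤ h (2 * m) := hmono.monotone (by omega)
      omega
  · rintro _ ⟨n, rfl⟩
    exact hX' _
  · refine Set.infinite_range_of_injective fun a b hab => ?_
    have hab' : h (2 * a) = h (2 * b) := hab
    have := hmono.injective hab'
    omega
  · refine (Set.infinite_range_of_injective (f := fun n => h (2 * n + 1))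
      fun a b hab => ?_).mono ?_
    · have hab' : h (2 * a + 1) = h (2 * b + 1) := hab
      have := hmono.injective hab'
      omega
    · rintro _ ⟨n, rfl⟩
      refine ⟨hX' (2 * n + 1), ?_⟩
      rintro ⟨m, hm⟩
      have hm' : h (2 * m) = h (2 * n + 1) := hm
      have := hmono.injective hm'
      omega

end Pool.Agent.Helper66.FS
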