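import Pool.Agent.Helper66.FS.Rel
import Pool.Agent.Helper66.FS.Fried

/-!
# Property (F)
-/

namespace Pool.Agent.Helper66.FS

variable {A A₀ A₁ B B₀ B₁ R S W V : Set ℕ} {f g : Set ℕ → Set ℕ}

theorem ce_iUnion {n : ℕ} {X : Fin n → Set ℕ} (h : ∀ i, CE (X i)) : CE (⋃ i, X i) := by
  have : ∀ s : Finset (Fin n), CE (⋃ i ∈ s, X i) := by
    classical
    intro s
    induction s using Finset.induction_on with
    | empty => simpa using comp_empty.ce
    | insert a s _ ih =>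
      rw [Finset.set_biUnion_insert]
      exact (h a).union ih
  simpa using this Finset.univ

theorem comp_iUnion {n : ℕ} {X : Fin n → Set ℕ} (h : ∀ i, Comp (X i)) : Comp (⋃ i, X i) := by
  have : ∀ s : Finset (Fin n), Comp (⋃ i ∈ s, X i) := by
    classical
    intro s
    induction s using Finset.induction_on with
    | empty => simpa using comp_empty
    | insert a s _ ih =>
      rw [Finset.set_biUnion_insert]
      exact (h a).union ih
  simpa using this Finset.univ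

namespace Friedberg

theorem sub₀ (h : Friedberg A A₀ A₁) : A₀ ⊆ A := by rw [← h.union]; exact Set.subset_union_left

theorem sub₁ (h : Friedberg A A₀ A₁) : A₁ ⊆ A := by rw [← h.union]; exact Set.subset_union_right

theorem ce (h : Friedberg A A₀ A₁) : CE A := by rw [← h.union]; exact h.ce₀.union h.ce₁

theorem symm (h : Friedberg A A₀ A₁) : Friedberg A A₁ A₀ :=
  ⟨h.ce₁, h.ce₀, h.disj.symm, by rw [Set.union_comm]; exact h.union,
    fun W hW h' => (h.cond W hW h').symm⟩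

theorem inter_empty (h : Friedberg A A₀ A₁) : A₀ ∩ A₁ = ∅ := Set.disjoint_iff_inter_eq_empty.1 h.disj

theorem mem_iff (h : Friedberg A A₀ A₁) (x : ℕ) : x ∈ A ↔ x ∈ A₀ ∨ x ∈ A₁ := by
  rw [← h.union]; rfl

theorem not_both (h : Friedberg A A₀ A₁) (x : ℕ) : ¬ (x ∈ A₀ ∧ x ∈ A₁) :=
  fun hx => Set.disjoint_left.1 h.disj hx.1 hx.2

/-- restriction to a computable set -/
theorem restrict (h : Friedberg A A₀ A₁) (hR : Comp R) :
    Friedberg (A ∩ R) (A₀ ∩ R) (A₁ ∩ R) := by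
  have key : ∀ {A₀}, (∀ W, CE W → ¬ CE (W \ A) → ¬ CE (W \ A₀)) →
      ∀ W, CE W → ¬ CE (W \ (A ∩ R)) → ¬ CE (W \ (A₀ ∩ R)) := by
    intro A₀ h W hW h1 h2
    have e1 : W \ (A ∩ R) = (W \ R) ∪ ((W ∩ R) \ A) := by
      ext x; simp only [Set.mem_sdiff, Set.mem_inter_iff, Set.mem_union]; tauto
    have e2 : (W ∩ R) \ A₀ = (W \ (A₀ ∩ R)) ∩ R := by
      ext x; simp only [Set.mem_sdiff, Set.mem_inter_iff]; tauto
    refine h (W ∩ R) (hW.inter hR.ce) (fun h3 => h1 ?_) ?_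
    · rw [e1]; exact (hW.diff hR).union h3
    · rw [e2]; exact h2.inter hR.ce
  exact ⟨h.ce₀.inter hR.ce, h.ce₁.inter hR.ce,
    Set.disjoint_of_subset Set.inter_subset_left Set.inter_subset_left h.disj,
    by rw [← Set.union_inter_distrib_right, h.union],
    fun W hW h1 => ⟨key (fun W hW h' => (h.cond W hW h').1) W hW h1,
      key (fun W hW h' => (h.cond W hW h').2) W hW h1⟩⟩

/-- gluing along a computable partition -/
theorem glue {n : ℕ} {R X Z : Fin n → Set ℕ} (hR : ∀ i, Comp (R i))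
    (hd : ∀ i j, i ≠ j → R i ∩ R j = ∅) (hu : ⋃ i, R i = Set.univ)
    (h : ∀ i, Friedberg (A ∩ R i) (X i) (Z i)) : Friedberg A (⋃ i, X i) (⋃ i, Z i) := by
  have hdj : ∀ i j x, x ∈ R i → x ∈ R j → i = j := by
    intro i j x hi hj
    by_contra hij
    have : x ∈ R i ∩ R j := ⟨hi, hj⟩
    rw [hd i j hij] at this
    exact this
  have hX : ∀ i x, x ∈ X i → x ∈ R i := fun i x hx => ((h i).sub₀ hx).2
  have hZ : ∀ i x, x ∈ Z i → x ∈ R i := fun i x hx => ((h i).sub₁ hx).2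
  have hex : ∀ x, ∃ i, x ∈ R i := fun x => by
    have : x ∈ ⋃ i, R i := by rw [hu]; trivial
    exact Set.mem_iUnion.1 this
  have key : ∀ {X : Fin n → Set ℕ}, (∀ i x, x ∈ X i → x ∈ R i) →
      (∀ i W, CE W → ¬ CE (W \ (A ∩ R i)) → ¬ CE (W \ X i)) →
      ∀ W, CE W → ¬ CE (W \ A) → ¬ CE (W \ ⋃ i, X i) := by
    intro X hX hc W hW h1 h2
    apply h1
    have e1 : W \ A = ⋃ i, (W ∩ R i) \ (A ∩ R i) := by
      ext x
      simp only [Set.mem_sdiff, Set.mem_inter_iff, Set.mem_iUnion]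
      constructor
      · rintro ⟨h3, h4⟩
        obtain ⟨i, hi⟩ := hex x
        exact ⟨i, ⟨h3, hi⟩, fun h => h4 h.1⟩
      · rintro ⟨i, ⟨h3, h4⟩, h5⟩
        exact ⟨h3, fun h => h5 ⟨h, h4⟩⟩
    rw [e1]
    refine ce_iUnion fun i => ?_
    by_contra h3
    refine hc i (W ∩ R i) (hW.inter (hR i).ce) h3 ?_
    have e2 : (W ∩ R i) \ X i = (W \ ⋃ i, X i) ∩ R i := by
      ext x
      simp only [Set.mem_sdiff, Set.mem_inter_iff, Set.mem_iUnion, not_exists]
      constructor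
      · rintro ⟨⟨h4, h5⟩, h6⟩
        refine ⟨⟨h4, fun j hj => ?_⟩, h5⟩
        obtain rfl := hdj i j x h5 (hX j x hj)
        exact h6 hj
      · rintro ⟨⟨h4, h5⟩, h6⟩
        exact ⟨⟨h4, h6⟩, h5 i⟩
    rw [e2]
    exact h2.inter (hR i).ce
  refine ⟨ce_iUnion fun i => (h i).ce₀, ce_iUnion fun i => (h i).ce₁, ?_, ?_,
    fun W hW h1 => ⟨key hX (fun i W hW h' => ((h i).cond W hW h').1) W hW h1,
      key hZ (fun i W hW h' => ((h i).cond W hW h').2) W hW h1⟩⟩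
  · rw [Set.disjoint_left]
    intro x hx hx'
    obtain ⟨i, hi⟩ := Set.mem_iUnion.1 hx
    obtain ⟨j, hj⟩ := Set.mem_iUnion.1 hx'
    obtain rfl := hdj i j x (hX i x hi) (hZ j x hj)
    exact (h i).not_both x ⟨hi, hj⟩
  · ext x
    constructor
    · rintro (hx | hx)
      · obtain ⟨i, hi⟩ := Set.mem_iUnion.1 hx
        exact ((h i).sub₀ hi).1
      · obtain ⟨i, hi⟩ := Set.mem_iUnion.1 hx
        exact ((h i).sub₁ hi).1
    · intro hx
      obtain ⟨i, hi⟩ := hex x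
      rcases ((h i).mem_iff x).1 ⟨hx, hi⟩ with h' | h'
      · exact Or.inl (Set.mem_iUnion.2 ⟨i, h'⟩)
      · exact Or.inr (Set.mem_iUnion.2 ⟨i, h'⟩)

theorem comp_iff (h : Friedberg A A₀ A₁) : Comp A ↔ Comp A₀ := by
  constructor
  · intro h'
    rw [FS.comp_iff]
    refine ⟨h.ce₀, ?_⟩
    have : A₀ᶜ = Aᶜ ∪ A₁ := by
      ext x
      have h1 := h.mem_iff x
      have h2 := h.not_both x
      simp only [Set.mem_compl_iff, Set.mem_union]
      tauto
    rw [this]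
    exact h'.compl.ce.union h.ce₁
  · intro h'
    rw [FS.comp_iff]
    refine ⟨h.ce, ?_⟩
    by_contra h1
    rw [Set.compl_eq_univ_sdiff] at h1
    refine (h.cond Set.univ comp_univ.ce h1).1 ?_
    rw [← Set.compl_eq_univ_sdiff]
    exact h'.compl.ce

theorem infinite (h : Friedberg A A₀ A₁) (hA : ¬ Comp A) : A₀.Infinite := by
  intro hf
  exact hA (h.comp_iff.2 (comp_of_finite hf))

/-- halves of halves are halves -/
theorem half (h : Friedberg A A₀ A₁) (h' : Friedberg A₀ B₀ B₁) : Friedberg A B₀ (B₁ ∪ A₁) := by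
  refine ⟨h'.ce₀, h'.ce₁.union h.ce₁, ?_, ?_, fun W hW h1 => ⟨?_, fun h2 => ?_⟩⟩
  · rw [Set.disjoint_left]
    rintro x hx (hx' | hx')
    · exact h'.not_both x ⟨hx, hx'⟩
    · exact h.not_both x ⟨h'.sub₀ hx, hx'⟩
  · rw [← Set.union_assoc, h'.union, h.union]
  · exact (h'.cond W hW (h.cond W hW h1).1).1
  · have e1 : (W \ (B₁ ∪ A₁)) \ A = W \ A := by
      ext x
      have h3 := h.mem_iff x
      have h4 := h'.mem_iff x
      simp only [Set.mem_sdiff, Set.mem_union]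
      tauto
    have e2 : (W \ (B₁ ∪ A₁)) \ A₁ = W \ (B₁ ∪ A₁) := by
      ext x
      simp only [Set.mem_sdiff, Set.mem_union]
      tauto
    refine (h.cond _ h2 (by rw [e1]; exact h1)).2 ?_
    rw [e2]
    exact h2

end Friedberg

theorem PIso.f_diff (h : PIso R S f g) (hV : CE V) (hW : CE W) (hVR : V ⊆ R) (hWR : W ⊆ R)
    (hd : CE (V \ W)) : f (V \ W) = f V \ f W := by
  have h1 : V \ W ⊆ R := fun x hx => hVR hx.1
  have h2 : CE (V ∩ W) := hV.inter hW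
  have e1 : f V = f (V \ W) ∪ f (V ∩ W) := by
    rw [← h.f_union hd h2 h1 (fun x hx => hVR hx.1), Set.sdiff_union_inter]
  have e2 : f (V ∩ W) = f V ∩ f W := h.f_inter hV hW hVR hWR
  have e3 : f (V \ W) ∩ f W = ∅ := h.f_disj hd hW h1 hWR (by
    ext x; simp only [Set.mem_inter_iff, Set.mem_sdiff, Set.mem_empty_iff_false]; tauto)
  ext x
  have h4 : x ∈ f V ↔ x ∈ f (V \ W) ∨ x ∈ f (V ∩ W) := by rw [e1]; rfl
  have h5 : x ∈ f (V ∩ W) ↔ x ∈ f V ∧ x ∈ f W := by rw [e2]; rfl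
  have h6 : ¬ (x ∈ f (V \ W) ∧ x ∈ f W) := fun hx => by
    have : x ∈ f (V \ W) ∩ f W := hx
    rw [e3] at this
    exact this
  simp only [Set.mem_sdiff]
  tauto

/-- transport of Friedberg splittings -/
theorem Friedberg.map (h : Friedberg A A₀ A₁) (hf : PIso Set.univ Set.univ f g) :
    Friedberg (f A) (f A₀) (f A₁) := by
  have su : ∀ X : Set ℕ, X ⊆ Set.univ := Set.subset_univ
  have key : ∀ {A A₀ : Set ℕ}, CE A → CE A₀ → (∀ W, CE W → ¬ CE (W \ A) → ¬ CE (W \ A₀)) →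
      ∀ W, CE W → ¬ CE (W \ f A) → ¬ CE (W \ f A₀) := by
    intro A A₀ hA hA₀ hc W hW h1 h2
    have hV := (hf.mg W hW (su _)).1
    have e : f (g W) = W := hf.fg W hW (su _)
    refine hc (g W) hV (fun h3 => h1 ?_) ?_
    · have := hf.f_diff hV hA (su _) (su _) h3
      rw [e] at this
      rw [← this]
      exact (hf.mf _ h3 (su _)).1
    · have := hf.symm.f_diff hW (hf.mf A₀ hA₀ (su _)).1 (su _) (su _) h2
      rw [hf.gf A₀ hA₀ (su _)] at this
      rw [← this]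
      exact (hf.mg _ h2 (su _)).1
  refine ⟨(hf.mf _ h.ce₀ (su _)).1, (hf.mf _ h.ce₁ (su _)).1, ?_, ?_,
    fun W hW h1 => ⟨key h.ce h.ce₀ (fun W hW h' => (h.cond W hW h').1) W hW h1,
      key h.ce h.ce₁ (fun W hW h' => (h.cond W hW h').2) W hW h1⟩⟩
  · rw [Set.disjoint_iff_inter_eq_empty]
    exact hf.f_disj h.ce₀ h.ce₁ (su _) (su _) h.inter_empty
  · rw [← hf.f_union h.ce₀ h.ce₁ (su _) (su _), h.union]

theorem Auto.ce₀ (h : Auto A B) : CE A := h.1

theorem Auto.ce₁ (h : Auto A B) : CE B := h.2.1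

theorem Auto.refl (hA : CE A) : Auto A A := (auto_iff hA).2 Rel.refl

theorem Auto.symm (h : Auto A B) : Auto B A :=
  (auto_iff h.ce₁).2 (((auto_iff h.ce₀).1 h).symm h.ce₀ (Set.subset_univ _))

theorem Auto.trans {C : Set ℕ} (h : Auto A B) (h' : Auto B C) : Auto A C :=
  (auto_iff h.ce₀).2 (((auto_iff h.ce₀).1 h).trans ((auto_iff h'.ce₀).1 h'))

/-- Friedberg splittings are transported by automorphisms -/
theorem Auto.friedberg (h : Auto A B) (hA : Friedberg A A₀ A₁) :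
    ∃ B₀ B₁, Friedberg B B₀ B₁ ∧ Auto A₀ B₀ := by
  obtain ⟨f, g, hf, rfl⟩ := (auto_iff h.ce₀).1 h
  exact ⟨f A₀, f A₁, hA.map hf, (auto_iff hA.ce₀).2 ⟨f, g, hf, rfl⟩⟩

/-- it suffices to consider one member of the orbit -/
theorem propertyF_iff (hA : CE A) : PropertyF (orbit A) ↔
    ∀ A₀ A₁ B₀ B₁ : Set ℕ, Friedberg A A₀ A₁ → Friedberg A B₀ B₁ → Auto A₀ B₀ := by
  constructor
  · exact fun h A₀ A₁ B₀ B₁ h₀ h₁ => h A (Auto.refl hA) A (Auto.refl hA) A₀ A₁ B₀ B₁ h₀ h₁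
  · intro h X hX Y hY X₀ X₁ Y₀ Y₁ h₀ h₁
    obtain ⟨A₀, A₁, h₂, h₃⟩ := (Auto.symm hX).friedberg h₀
    obtain ⟨B₀, B₁, h₄, h₅⟩ := (Auto.symm hY).friedberg h₁
    exact h₃.trans ((h A₀ A₁ B₀ B₁ h₂ h₄).trans h₅.symm)

end Pool.Agent.Helper66.FS
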