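import Pool.Agent.Helper66.FS.Iso

/-!
# Isomorphisms between the lattices of c.e. subsets of two sets
-/

namespace Pool.Agent.Helper66.FS

/-- `f` and `g` are inverse isomorphisms between the c.e. subsets of `R` and of `S` -/
structure PIso (R S : Set ℕ) (f g : Set ℕ → Set ℕ) : Prop where
  mf : ∀ W, CE W → W ⊆ R → CE (f W) ∧ f W ⊆ S
  mg : ∀ V, CE V → V ⊆ S → CE (g V) ∧ g V ⊆ R
  gf : ∀ W, CE W → W ⊆ R → g (f W) = W
  fg : ∀ V, CE V → V ⊆ S → f (g V) = V
  monof : ∀ W W', CE W → CE W' → W ⊆ W' → W' ⊆ R → f W ⊆ f W'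
  monog : ∀ V V', CE V → CE V' → V ⊆ V' → V' ⊆ S → g V ⊆ g V'

/-- some isomorphism takes `X` to `Y` -/
def Rel (R X S Y : Set ℕ) : Prop := ∃ f g, PIso R S f g ∧ f X = Y

variable {R S T R' S' X Y Z X' Y' W V : Set ℕ} {f g f' g' : Set ℕ → Set ℕ}

namespace PIso

theorem symm (h : PIso R S f g) : PIso S R g f :=
  ⟨h.mg, h.mf, h.fg, h.gf, h.monog, h.monof⟩

theorem refl : PIso R R id id :=
  ⟨fun _ h h' => ⟨h, h'⟩, fun _ h h' => ⟨h, h'⟩, fun _ _ _ => rfl, fun _ _ _ => rfl,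
    fun _ _ _ _ h _ => h, fun _ _ _ _ h _ => h⟩

theorem trans (h : PIso R S f g) (h' : PIso S T f' g') : PIso R T (f' ∘ f) (g ∘ g') where
  mf W hW hWR := h'.mf _ (h.mf W hW hWR).1 (h.mf W hW hWR).2
  mg V hV hVT := h.mg _ (h'.mg V hV hVT).1 (h'.mg V hV hVT).2
  gf W hW hWR := by
    have h1 := h.mf W hW hWR
    simp only [Function.comp]
    rw [h'.gf _ h1.1 h1.2, h.gf W hW hWR]
  fg V hV hVT := by
    have h1 := h'.mg V hV hVT
    simp only [Function.comp]
    rw [h.fg _ h1.1 h1.2, h'.fg V hV hVT]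
  monof W W' hW hW' hs hR :=
    h'.monof _ _ (h.mf W hW (hs.trans hR)).1 (h.mf W' hW' hR).1 (h.monof W W' hW hW' hs hR)
      (h.mf W' hW' hR).2
  monog V V' hV hV' hs hT :=
    h.monog _ _ (h'.mg V hV (hs.trans hT)).1 (h'.mg V' hV' hT).1 (h'.monog V V' hV hV' hs hT)
      (h'.mg V' hV' hT).2

theorem f_union (h : PIso R S f g) (hW : CE W) (hV : CE V) (hWR : W ⊆ R) (hVR : V ⊆ R) :
    f (W ∪ V) = f W ∪ f V := by
  have hU : CE (W ∪ V) := hW.union hV
  have hUR : W ∪ V ⊆ R := Set.union_subset hWR hVR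
  have h1 := h.mf W hW hWR
  have h2 := h.mf V hV hVR
  have h3 : CE (f W ∪ f V) := h1.1.union h2.1
  have h4 : f W ∪ f V ⊆ S := Set.union_subset h1.2 h2.2
  apply Set.Subset.antisymm
  · have h5 : W ∪ V ⊆ g (f W ∪ f V) := by
      apply Set.union_subset
      · have := h.monog _ _ h1.1 h3 Set.subset_union_left h4
        rwa [h.gf W hW hWR] at this
      · have := h.monog _ _ h2.1 h3 Set.subset_union_right h4
        rwa [h.gf V hV hVR] at this
    have h6 := h.monof _ _ hU (h.mg _ h3 h4).1 h5 (h.mg _ h3 h4).2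
    rwa [h.fg _ h3 h4] at h6
  · exact Set.union_subset (h.monof _ _ hW hU Set.subset_union_left hUR)
      (h.monof _ _ hV hU Set.subset_union_right hUR)

theorem f_inter (h : PIso R S f g) (hW : CE W) (hV : CE V) (hWR : W ⊆ R) (hVR : V ⊆ R) :
    f (W ∩ V) = f W ∩ f V := by
  have hU : CE (W ∩ V) := hW.inter hV
  have hUR : W ∩ V ⊆ R := Set.inter_subset_left.trans hWR
  have h1 := h.mf W hW hWR
  have h2 := h.mf V hV hVR
  have h3 : CE (f W ∩ f V) := h1.1.inter h2.1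
  have h4 : f W ∩ f V ⊆ S := Set.inter_subset_left.trans h1.2
  apply Set.Subset.antisymm
  · exact Set.subset_inter (h.monof _ _ hU hW Set.inter_subset_left hWR)
      (h.monof _ _ hU hV Set.inter_subset_right hVR)
  · have h5 : g (f W ∩ f V) ⊆ W ∩ V := by
      apply Set.subset_inter
      · have := h.monog _ _ h3 h1.1 Set.inter_subset_left h1.2
        rwa [h.gf W hW hWR] at this
      · have := h.monog _ _ h3 h2.1 Set.inter_subset_right h2.2
        rwa [h.gf V hV hVR] at this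
    have h6 := h.monof _ _ (h.mg _ h3 h4).1 hU h5 hUR
    rwa [h.fg _ h3 h4] at h6

theorem f_empty (h : PIso R S f g) : f ∅ = ∅ := by
  have h0 : CE (∅ : Set ℕ) := comp_empty.ce
  have h1 := h.mg ∅ h0 (Set.empty_subset _)
  have h2 := h.monof _ _ h0 h1.1 (Set.empty_subset _) h1.2
  rw [h.fg ∅ h0 (Set.empty_subset _)] at h2
  exact Set.subset_empty_iff.1 h2

theorem f_top (h : PIso R S f g) (hR : CE R) (hS : CE S) : f R = S := by
  have h1 := h.mg S hS subset_rfl
  have h2 := h.monof _ _ h1.1 hR h1.2 subset_rfl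
  rw [h.fg S hS subset_rfl] at h2
  exact Set.Subset.antisymm (h.mf R hR subset_rfl).2 h2

theorem f_disj (h : PIso R S f g) (hW : CE W) (hV : CE V) (hWR : W ⊆ R) (hVR : V ⊆ R)
    (hd : W ∩ V = ∅) : f W ∩ f V = ∅ := by
  rw [← h.f_inter hW hV hWR hVR, hd, h.f_empty]

/-- gluing -/
theorem glue (h : PIso R S f g) (h' : PIso R' S' f' g') (hR : CE R) (hR' : CE R') (hS : CE S)
    (hS' : CE S') (hd : R ∩ R' = ∅) (hd' : S ∩ S' = ∅) :
    PIso (R ∪ R') (S ∪ S') (fun W => f (W ∩ R) ∪ f' (W ∩ R'))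
      (fun V => g (V ∩ S) ∪ g' (V ∩ S')) := by
  have key : ∀ {R S R' S' : Set ℕ} {f g f' g' : Set ℕ → Set ℕ}, PIso R S f g → PIso R' S' f' g' →
      CE R → CE R' → CE S → CE S' → S ∩ S' = ∅ → ∀ W, CE W → W ⊆ R ∪ R' →
      (CE (f (W ∩ R) ∪ f' (W ∩ R')) ∧ f (W ∩ R) ∪ f' (W ∩ R') ⊆ S ∪ S') ∧
      g ((f (W ∩ R) ∪ f' (W ∩ R')) ∩ S) ∪ g' ((f (W ∩ R) ∪ f' (W ∩ R')) ∩ S') = W := by
    intro R S R' S' f g f' g' h h' hR hR' hS hS' hd W hW hWR
    have h1 := h.mf _ (hW.inter hR) Set.inter_subset_right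
    have h2 := h'.mf _ (hW.inter hR') Set.inter_subset_right
    refine ⟨⟨h1.1.union h2.1, Set.union_subset_union h1.2 h2.2⟩, ?_⟩
    have e1 : (f (W ∩ R) ∪ f' (W ∩ R')) ∩ S = f (W ∩ R) := by
      rw [Set.union_inter_distrib_right, Set.inter_eq_left.2 h1.2]
      have : f' (W ∩ R') ∩ S = ∅ := Set.subset_empty_iff.1 (by
        rw [← hd]
        exact fun x hx => ⟨hx.2, h2.2 hx.1⟩)
      rw [this, Set.union_empty]
    have e2 : (f (W ∩ R) ∪ f' (W ∩ R')) ∩ S' = f' (W ∩ R') := by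
      rw [Set.union_inter_distrib_right, Set.inter_eq_left.2 h2.2]
      have : f (W ∩ R) ∩ S' = ∅ := Set.subset_empty_iff.1 (by
        rw [← hd]
        exact fun x hx => ⟨h1.2 hx.1, hx.2⟩)
      rw [this, Set.empty_union]
    rw [e1, e2, h.gf _ (hW.inter hR) Set.inter_subset_right,
      h'.gf _ (hW.inter hR') Set.inter_subset_right, ← Set.inter_union_distrib_left,
      Set.inter_eq_left.2 hWR]
  refine ⟨fun W hW hWR => (key h h' hR hR' hS hS' hd' W hW hWR).1,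
    fun V hV hVS => (key h.symm h'.symm hS hS' hR hR' hd V hV hVS).1,
    fun W hW hWR => (key h h' hR hR' hS hS' hd' W hW hWR).2,
    fun V hV hVS => (key h.symm h'.symm hS hS' hR hR' hd V hV hVS).2, ?_, ?_⟩
  · intro W W' hW hW' hs hWR
    exact Set.union_subset_union
      (h.monof _ _ (hW.inter hR) (hW'.inter hR) (Set.inter_subset_inter_left _ hs)
        Set.inter_subset_right)
      (h'.monof _ _ (hW.inter hR') (hW'.inter hR') (Set.inter_subset_inter_left _ hs)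
        Set.inter_subset_right)
  · intro V V' hV hV' hs hVS
    exact Set.union_subset_union
      (h.monog _ _ (hV.inter hS) (hV'.inter hS) (Set.inter_subset_inter_left _ hs)
        Set.inter_subset_right)
      (h'.monog _ _ (hV.inter hS') (hV'.inter hS') (Set.inter_subset_inter_left _ hs)
        Set.inter_subset_right)

/-- restriction -/
theorem restrict (h : PIso T S f g) (hR : CE R) (hRT : R ⊆ T) : PIso R (f R) f g := by
  have h1 := h.mf R hR hRT
  refine ⟨fun W hW hWR => ⟨(h.mf W hW (hWR.trans hRT)).1, h.monof _ _ hW hR hWR hRT⟩,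
    fun V hV hVR => ⟨(h.mg V hV (hVR.trans h1.2)).1, ?_⟩,
    fun W hW hWR => h.gf W hW (hWR.trans hRT),
    fun V hV hVR => h.fg V hV (hVR.trans h1.2),
    fun W W' hW hW' hs hWR => h.monof W W' hW hW' hs (hWR.trans hRT),
    fun V V' hV hV' hs hVR => h.monog V V' hV hV' hs (hVR.trans h1.2)⟩
  have := h.monog _ _ hV h1.1 hVR h1.2
  rwa [h.gf R hR hRT] at this

/-- computable sets go to computable sets -/
theorem comp_f (h : PIso R S f g) (hR : Comp R) (hS : Comp S) (hW : Comp W) (hWR : W ⊆ R) :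
    Comp (f W) := by
  have h1 : CE (R \ W) := hR.ce.diff hW
  have h2 : R \ W ⊆ R := Set.diff_subset
  rw [comp_iff]
  refine ⟨(h.mf W hW.ce hWR).1, ?_⟩
  have h3 : (f W)ᶜ = f (R \ W) ∪ Sᶜ := by
    have e1 : f W ∪ f (R \ W) = S := by
      rw [← h.f_union hW.ce h1 hWR h2, Set.union_diff_cancel hWR, h.f_top hR.ce hS.ce]
    have e2 : f W ∩ f (R \ W) = ∅ := h.f_disj hW.ce h1 hWR h2 (by
      ext x
      simp only [Set.mem_inter_iff, Set.mem_sdiff, Set.mem_empty_iff_false, iff_false]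
      tauto)
    ext x
    have e3 : x ∈ f W ∨ x ∈ f (R \ W) ↔ x ∈ S := by rw [← e1]; rfl
    have e4 : ¬ (x ∈ f W ∧ x ∈ f (R \ W)) := fun hx => by
      have : x ∈ f W ∩ f (R \ W) := hx
      rw [e2] at this
      exact this
    simp only [Set.mem_compl_iff, Set.mem_union]
    tauto
  rw [h3]
  exact (h.mf _ h1 h2).1.union hS.compl.ce

end PIso

namespace Rel

theorem refl : Rel R X R X := ⟨id, id, PIso.refl, rfl⟩

theorem symm (h : Rel R X S Y) (hX : CE X) (hXR : X ⊆ R) : Rel S Y R X := by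
  obtain ⟨f, g, h, rfl⟩ := h
  exact ⟨g, f, h.symm, h.gf X hX hXR⟩

theorem trans (h : Rel R X S Y) (h' : Rel S Y T Z) : Rel R X T Z := by
  obtain ⟨f, g, h, rfl⟩ := h
  obtain ⟨f', g', h', rfl⟩ := h'
  exact ⟨_, _, h.trans h', rfl⟩

theorem glue (h : Rel R X S Y) (h' : Rel R' X' S' Y') (hR : CE R) (hR' : CE R') (hS : CE S)
    (hS' : CE S') (hd : R ∩ R' = ∅) (hd' : S ∩ S' = ∅) (hX : X ⊆ R) (hX' : X' ⊆ R') :
    Rel (R ∪ R') (X ∪ X') (S ∪ S') (Y ∪ Y') := by
  obtain ⟨f, g, h, rfl⟩ := h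
  obtain ⟨f', g', h', rfl⟩ := h'
  refine ⟨_, _, h.glue h' hR hR' hS hS' hd hd', ?_⟩
  have e1 : (X ∪ X') ∩ R = X := by
    ext x
    have : ¬ (x ∈ R ∧ x ∈ R') := fun hx => by
      have : x ∈ R ∩ R' := hx
      rw [hd] at this
      exact this
    have h1 : x ∈ X → x ∈ R := fun h => hX h
    have h2 : x ∈ X' → x ∈ R' := fun h => hX' h
    simp only [Set.mem_inter_iff, Set.mem_union]
    tauto
  have e2 : (X ∪ X') ∩ R' = X' := by
    ext x
    have : ¬ (x ∈ R ∧ x ∈ R') := fun hx => by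
      have : x ∈ R ∩ R' := hx
      rw [hd] at this
      exact this
    have h1 : x ∈ X → x ∈ R := fun h => hX h
    have h2 : x ∈ X' → x ∈ R' := fun h => hX' h
    simp only [Set.mem_inter_iff, Set.mem_union]
    tauto
  simp only [e1, e2]

theorem comp (h : Rel R X S Y) (hR : Comp R) (hS : Comp S) (hX : CE X) (hXR : X ⊆ R) :
    Comp X ↔ Comp Y := by
  obtain ⟨f, g, h, rfl⟩ := h
  refine ⟨fun h' => h.comp_f hR hS h' hXR, fun h' => ?_⟩
  have := h.symm.comp_f hS hR h' (h.mf X hX hXR).2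
  rwa [h.gf X hX hXR] at this

/-- infinite computable sets -/
theorem inf_empty (hR : Comp R) (hS : Comp S) (iR : R.Infinite) (iS : S.Infinite) :
    Rel R ∅ S ∅ :=
  ⟨tr R S, tr S R, ⟨fun _ h _ => ⟨tr_ce hR hS iR h, tr_subset⟩,
    fun _ h _ => ⟨tr_ce hS hR iS h, tr_subset⟩, fun _ _ h => tr_tr iS h,
    fun _ _ h => tr_tr iR h, fun _ _ _ _ h _ => tr_mono h, fun _ _ _ _ h _ => tr_mono h⟩, tr_empty⟩

theorem inf_top (hR : Comp R) (hS : Comp S) (iR : R.Infinite) (iS : S.Infinite) :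
    Rel R R S S := by
  obtain ⟨f, g, h, _⟩ := inf_empty hR hS iR iS
  exact ⟨f, g, h, h.f_top hR.ce hS.ce⟩

/-- absorbing a computable set outside `X` -/
theorem absorb₁ (hR : Comp R) (hT : Comp T) (hd : R ∩ T = ∅) (hXR : X ⊆ R)
    (hY : CE Y) (hYR : Y ⊆ R) (hXY : X ∩ Y = ∅) (iY : Y.Infinite) : Rel R X (R ∪ T) X := by
  obtain ⟨D, hD, hDY, iD, _⟩ := exists_comp_subset hY iY
  have hDR : D ⊆ R := hDY.trans hYR
  have h1 : Rel (R \ D) X (R \ D) X := refl
  have h2 : Rel D ∅ (D ∪ T) ∅ := inf_empty hD (hD.union hT) iD (iD.mono Set.subset_union_left)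
  have dj : ∀ x, x ∈ R → x ∈ T → False := fun x h1 h2 => by
    have : x ∈ R ∩ T := ⟨h1, h2⟩
    rw [hd] at this
    exact this
  have dj' : ∀ x, x ∈ X → x ∈ D → False := fun x h1 h2 => by
    have : x ∈ X ∩ Y := ⟨h1, hDY h2⟩
    rw [hXY] at this
    exact this
  have h3 := h1.glue h2 (hR.diff hD).ce hD.ce (hR.diff hD).ce (hD.union hT).ce
    (by ext x; simp) (by
      ext x
      have := dj x
      simp only [Set.mem_inter_iff, Set.mem_sdiff, Set.mem_union, Set.mem_empty_iff_false, iff_false]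
      tauto) (fun x hx => ⟨hXR hx, fun h => dj' x hx h⟩) (Set.empty_subset _)
  have e1 : R \ D ∪ D = R := Set.diff_union_of_subset hDR
  have e2 : R \ D ∪ (D ∪ T) = R ∪ T := by rw [← Set.union_assoc, e1]
  rwa [e1, e2, Set.union_empty] at h3

/-- absorbing a computable set inside `X` -/
theorem absorb₂ (hR : Comp R) (hT : Comp T) (hd : R ∩ T = ∅) (hX : CE X) (hXR : X ⊆ R)
    (iX : X.Infinite) : Rel R X (R ∪ T) (X ∪ T) := by
  obtain ⟨D, hD, hDX, iD, _⟩ := exists_comp_subset hX iX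
  have hDR : D ⊆ R := hDX.trans hXR
  have h1 : Rel (R \ D) (X \ D) (R \ D) (X \ D) := refl
  have h2 : Rel D D (D ∪ T) (D ∪ T) :=
    inf_top hD (hD.union hT) iD (iD.mono Set.subset_union_left)
  have dj : ∀ x, x ∈ R → x ∈ T → False := fun x h1 h2 => by
    have : x ∈ R ∩ T := ⟨h1, h2⟩
    rw [hd] at this
    exact this
  have h3 := h1.glue h2 (hR.diff hD).ce hD.ce (hR.diff hD).ce (hD.union hT).ce
    (by ext x; simp) (by
      ext x
      have := dj x
      simp only [Set.mem_inter_iff, Set.mem_sdiff, Set.mem_union, Set.mem_empty_iff_false, iff_false]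
      tauto) (Set.diff_subset_diff_left hXR) subset_rfl
  have e1 : R \ D ∪ D = R := Set.diff_union_of_subset hDR
  have e2 : R \ D ∪ (D ∪ T) = R ∪ T := by rw [← Set.union_assoc, e1]
  have e3 : X \ D ∪ D = X := Set.diff_union_of_subset hDX
  have e4 : X \ D ∪ (D ∪ T) = X ∪ T := by rw [← Set.union_assoc, e3]
  rwa [e1, e2, e3, e4] at h3

/-- absorbing a computable set `T`, with the part `C` inside `X` -/
theorem absorb {C : Set ℕ} (hR : Comp R) (hT : Comp T) (hC : Comp C) (hCT : C ⊆ T)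
    (hd : R ∩ T = ∅) (hX : CE X) (hXR : X ⊆ R) (hY : CE Y) (hYR : Y ⊆ R) (hXY : X ∩ Y = ∅)
    (iX : X.Infinite) (iY : Y.Infinite) : Rel R X (R ∪ T) (X ∪ C) := by
  have dj : ∀ x, x ∈ R → x ∈ T → False := fun x h1 h2 => by
    have : x ∈ R ∩ T := ⟨h1, h2⟩
    rw [hd] at this
    exact this
  have dj' : ∀ x, x ∈ X → x ∈ Y → False := fun x h1 h2 => by
    have : x ∈ X ∩ Y := ⟨h1, h2⟩
    rw [hXY] at this
    exact this
  have h1 : Rel R X (R ∪ C) (X ∪ C) := absorb₂ hR hC (by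
    ext x
    have := dj x
    have := @hCT x
    simp only [Set.mem_inter_iff, Set.mem_empty_iff_false, iff_false]
    tauto) hX hXR iX
  have h2 : Rel (R ∪ C) (X ∪ C) ((R ∪ C) ∪ (T \ C)) (X ∪ C) :=
    absorb₁ (hR.union hC) (hT.diff hC) (by
      ext x
      have := dj x
      simp only [Set.mem_inter_iff, Set.mem_sdiff, Set.mem_union, Set.mem_empty_iff_false, iff_false]
      tauto) (Set.union_subset_union_left _ hXR) hY (hYR.trans Set.subset_union_left) (by
      ext x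
      have := dj x
      have := dj' x
      have := @hCT x
      have := @hYR x
      simp only [Set.mem_inter_iff, Set.mem_union, Set.mem_empty_iff_false, iff_false]
      tauto) iY
  have e1 : (R ∪ C) ∪ (T \ C) = R ∪ T := by rw [Set.union_assoc, Set.union_diff_cancel hCT]
  rw [e1] at h2
  exact h1.trans h2

/-- finite gluing -/
theorem glue_finset {n : ℕ} {R S X Y : Fin n → Set ℕ} (s : Finset (Fin n))
    (h : ∀ i, Rel (R i) (X i) (S i) (Y i)) (hR : ∀ i, CE (R i)) (hS : ∀ i, CE (S i))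
    (hdR : ∀ i j, i ≠ j → R i ∩ R j = ∅) (hdS : ∀ i j, i ≠ j → S i ∩ S j = ∅)
    (hX : ∀ i, X i ⊆ R i) :
    (CE (⋃ i ∈ s, R i) ∧ CE (⋃ i ∈ s, S i)) ∧
      Rel (⋃ i ∈ s, R i) (⋃ i ∈ s, X i) (⋃ i ∈ s, S i) (⋃ i ∈ s, Y i) := by
  classical
  induction s using Finset.induction_on with
  | empty =>
    simp only [Finset.notMem_empty, Set.iUnion_of_empty, Set.iUnion_empty]
    exact ⟨⟨comp_empty.ce, comp_empty.ce⟩, refl⟩
  | insert a s ha ih =>
    rw [Finset.set_biUnion_insert, Finset.set_biUnion_insert, Finset.set_biUnion_insert,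
      Finset.set_biUnion_insert]
    refine ⟨⟨(hR a).union ih.1.1, (hS a).union ih.1.2⟩,
      (h a).glue ih.2 (hR a) ih.1.1 (hS a) ih.1.2 ?_ ?_ (hX a) ?_⟩
    · ext x
      simp only [Set.mem_inter_iff, Set.mem_iUnion, Set.mem_empty_iff_false, iff_false, not_and,
        not_exists]
      intro h1 i hi h2
      have : x ∈ R a ∩ R i := ⟨h1, h2⟩
      rw [hdR a i fun h => ha (h ▸ hi)] at this
      exact this
    · ext x
      simp only [Set.mem_inter_iff, Set.mem_iUnion, Set.mem_empty_iff_false, iff_false, not_and,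
        not_exists]
      intro h1 i hi h2
      have : x ∈ S a ∩ S i := ⟨h1, h2⟩
      rw [hdS a i fun h => ha (h ▸ hi)] at this
      exact this
    · exact Set.iUnion₂_mono fun i _ => hX i

end Rel

theorem auto_iff {A B : Set ℕ} (hA : CE A) : Auto A B ↔ Rel Set.univ A Set.univ B := by
  classical
  constructor
  · rintro ⟨_, hB, Φ, hΦ⟩
    refine ⟨fun W => if h : CE W then (Φ ⟨W, h⟩).1 else W,
      fun V => if h : CE V then (Φ.symm ⟨V, h⟩).1 else V, ⟨?_, ?_, ?_, ?_, ?_, ?_⟩, ?_⟩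
    · intro W hW _
      simp only [dif_pos hW]
      exact ⟨(Φ ⟨W, hW⟩).2, Set.subset_univ _⟩
    · intro W hW _
      simp only [dif_pos hW]
      exact ⟨(Φ.symm ⟨W, hW⟩).2, Set.subset_univ _⟩
    · intro W hW _
      simp only [dif_pos hW, dif_pos (Φ ⟨W, hW⟩).2]
      exact congrArg Subtype.val (Φ.symm_apply_apply ⟨W, hW⟩)
    · intro W hW _
      simp only [dif_pos hW, dif_pos (Φ.symm ⟨W, hW⟩).2]
      exact congrArg Subtype.val (Φ.apply_symm_apply ⟨W, hW⟩)
    · intro W W' hW hW' hs _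
      simp only [dif_pos hW, dif_pos hW']
      exact Φ.monotone (show (⟨W, hW⟩ : Lat) ≤ ⟨W', hW'⟩ from hs)
    · intro W W' hW hW' hs _
      simp only [dif_pos hW, dif_pos hW']
      exact Φ.symm.monotone (show (⟨W, hW⟩ : Lat) ≤ ⟨W', hW'⟩ from hs)
    · simp only [dif_pos hA]
      exact congrArg Subtype.val hΦ
  · rintro ⟨f, g, h, hf⟩
    have hB : CE B := hf ▸ (h.mf A hA (Set.subset_univ _)).1
    refine ⟨hA, hB, ⟨⟨fun W => ⟨f W.1, (h.mf W.1 W.2 (Set.subset_univ _)).1⟩,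
      fun V => ⟨g V.1, (h.mg V.1 V.2 (Set.subset_univ _)).1⟩,
      fun W => Subtype.ext (h.gf W.1 W.2 (Set.subset_univ _)),
      fun V => Subtype.ext (h.fg V.1 V.2 (Set.subset_univ _))⟩, ?_⟩, Subtype.ext hf⟩
    intro W W'
    constructor
    · intro hs
      have := h.monog _ _ (h.mf W.1 W.2 (Set.subset_univ _)).1
        (h.mf W'.1 W'.2 (Set.subset_univ _)).1 hs (Set.subset_univ _)
      rwa [h.gf W.1 W.2 (Set.subset_univ _), h.gf W'.1 W'.2 (Set.subset_univ _)] at this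
    · intro hs
      exact h.monof _ _ W.2 W'.2 hs (Set.subset_univ _)

end Pool.Agent.Helper66.FS
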